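import Pool.Agent.X281.SS.Aff

/-!
# The group `E × E × C₂` acting on the words over an alphabet with 32 letters
-/

set_option autoImplicit false

namespace Pool.Agent.X281.SS

/-- the big group -/
abbrev G0 : Type := E × E × Multiplicative (ZMod 2)

/-- the action on a letter -/
def out0 (g : G0) (a : ℕ) : ℕ :=
  outE g.1 (a % 4) + 4 * outE g.2.1 (a / 4 % 4) + 16 * ((a / 16 + g.2.2.toAdd.val) % 2)

/-- the section at a letter -/
def sec0 (g : G0) (a : ℕ) : G0 := (secE g.1 (a % 4), secE g.2.1 (a / 4 % 4), g.2.2)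

theorem out0_lt (g : G0) (a : ℕ) : out0 g a < 32 := by
  unfold out0
  have := outE_lt g.1 (a % 4)
  have := outE_lt g.2.1 (a / 4 % 4)
  omega

theorem out0_1 (g : G0) (a : ℕ) : out0 g a % 4 = outE g.1 (a % 4) := by
  unfold out0
  have := outE_lt g.1 (a % 4)
  omega

theorem out0_2 (g : G0) (a : ℕ) : out0 g a / 4 % 4 = outE g.2.1 (a / 4 % 4) := by
  unfold out0
  have := outE_lt g.1 (a % 4)
  have := outE_lt g.2.1 (a / 4 % 4)
  omega

theorem out0_3 (g : G0) (a : ℕ) : out0 g a / 16 = (a / 16 + g.2.2.toAdd.val) % 2 := by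
  unfold out0
  have := outE_lt g.1 (a % 4)
  have := outE_lt g.2.1 (a / 4 % 4)
  omega

theorem ext32 {a b : ℕ} (h1 : a % 4 = b % 4) (h2 : a / 4 % 4 = b / 4 % 4)
    (h3 : a / 16 = b / 16) : a = b := by
  omega

theorem out0_mul (g h : G0) (a : ℕ) : out0 (g * h) a = out0 g (out0 h a) := by
  apply ext32
  · rw [out0_1, out0_1, out0_1]; exact outE_mul _ _ _
  · rw [out0_2, out0_2, out0_2]; exact outE_mul _ _ _
  · rw [out0_3, out0_3, out0_3]
    have h1 : (g * h).2.2.toAdd.val = (g.2.2.toAdd.val + h.2.2.toAdd.val) % 2 := by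
      change (g.2.2.toAdd + h.2.2.toAdd).val = _
      exact ZMod.val_add _ _
    rw [h1]
    omega

theorem sec0_mul (g h : G0) (a : ℕ) : sec0 (g * h) a = sec0 g (out0 h a) * sec0 h a := by
  unfold sec0
  rw [out0_1, out0_2]
  refine Prod.ext ?_ (Prod.ext ?_ rfl)
  · exact secE_mul _ _ _
  · exact secE_mul _ _ _

theorem out0_one {a : ℕ} (ha : a < 32) : out0 1 a = a := by
  apply ext32
  · rw [out0_1]
    exact outE_one (Nat.mod_lt _ (by norm_num))
  · rw [out0_2]
    exact outE_one (Nat.mod_lt _ (by norm_num))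
  · rw [out0_3]
    have : (1 : G0).2.2.toAdd.val = 0 := rfl
    rw [this]
    omega

theorem sec0_one (a : ℕ) : sec0 1 a = 1 := by
  refine Prod.ext ?_ (Prod.ext ?_ rfl)
  · exact secE_one _
  · exact secE_one _

/-- the action on a letter -/
def outF (g : G0) (a : Fin 32) : Fin 32 := ⟨out0 g a, out0_lt g a⟩

/-- the action on words -/
def act : G0 → List (Fin 32) → List (Fin 32)
  | _, [] => []
  | g, a :: w => outF g a :: act (sec0 g a) w

theorem act_mul (g h : G0) (w : List (Fin 32)) : act (g * h) w = act g (act h w) := by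
  induction w generalizing g h with
  | nil => rfl
  | cons a w ih =>
    change outF (g * h) a :: act (sec0 (g * h) a) w =
      outF g (outF h a) :: act (sec0 g (outF h a)) (act (sec0 h a) w)
    rw [← ih]
    congr 1
    · exact Fin.ext (out0_mul g h a)
    · congr 1
      exact sec0_mul g h a

theorem act_one (w : List (Fin 32)) : act 1 w = w := by
  induction w with
  | nil => rfl
  | cons a w ih =>
    change outF 1 a :: act (sec0 1 a) w = _
    rw [sec0_one, ih]
    congr 1
    exact Fin.ext (out0_one a.2)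

/-- the group acts on the words -/
def Psi : G0 →* Equiv.Perm (List (Fin 32)) :=
  MonoidHom.toHomPerm
    { toFun := fun g => (act g : Function.End (List (Fin 32)))
      map_one' := funext act_one
      map_mul' := fun g h => funext (act_mul g h) }

theorem Psi_apply (g : G0) (w : List (Fin 32)) : Psi g w = act g w := rfl

/-- acting trivially -/
def Tr (g : G0) : Prop := ∀ w, act g w = w

theorem Tr.out {g : G0} (h : Tr g) {a : ℕ} (ha : a < 32) : out0 g a = a := by
  have h1 := h [⟨a, ha⟩]
  have h2 : act g [⟨a, ha⟩] = [outF g ⟨a, ha⟩] := rfl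
  rw [h2] at h1
  have h3 := List.head_eq_of_cons_eq h1
  exact congrArg Fin.val h3

theorem Tr.sec {g : G0} (h : Tr g) {a : ℕ} (ha : a < 32) : Tr (sec0 g a) := by
  intro w
  have h1 := h (⟨a, ha⟩ :: w)
  exact List.tail_eq_of_cons_eq h1

theorem Psi_injective : Function.Injective Psi := by
  rw [injective_iff_map_eq_one]
  intro g hg
  have hT : Tr g := fun w => by
    have := Equiv.congr_fun hg w
    exact this
  have h1 : g.1 = 1 := by
    refine eq_one_of (S := fun e => ∃ g : G0, Tr g ∧ g.1 = e) ?_ ⟨g, hT, rfl⟩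
    rintro e ⟨g, hT, rfl⟩ x hx
    have h2 := congrArg (fun n => n % 4) (hT.out (a := x) (by omega))
    simp only [out0_1] at h2
    have h3 : x % 4 = x := Nat.mod_eq_of_lt hx
    rw [h3] at h2
    refine ⟨h2, sec0 g x, hT.sec (by omega), ?_⟩
    change secE g.1 (x % 4) = _
    rw [h3]
  have h2 : g.2.1 = 1 := by
    refine eq_one_of (S := fun e => ∃ g : G0, Tr g ∧ g.2.1 = e) ?_ ⟨g, hT, rfl⟩
    rintro e ⟨g, hT, rfl⟩ x hx
    have h2 := congrArg (fun n => n / 4 % 4) (hT.out (a := 4 * x) (by omega))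
    simp only [out0_2] at h2
    have h3 : 4 * x / 4 % 4 = x := by omega
    rw [h3] at h2
    refine ⟨h2, sec0 g (4 * x), hT.sec (by omega), ?_⟩
    change secE g.2.1 (4 * x / 4 % 4) = _
    rw [h3]
  have h3 : g.2.2 = 1 := by
    have h4 := congrArg (fun n => n / 16) (hT.out (a := 0) (by norm_num))
    simp only [out0_3] at h4
    have h5 : g.2.2.toAdd.val < 2 := ZMod.val_lt _
    have h6 : g.2.2.toAdd.val = 0 := by omega
    have h7 : g.2.2.toAdd = 0 := (ZMod.val_eq_zero _).1 h6
    exact h7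
  exact Prod.ext h1 (Prod.ext h2 h3)

end Pool.Agent.X281.SS
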