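import Pool.Agent.X281.SS.San

/-!
# Affine maps of the plane acting on words
-/

set_option autoImplicit false

namespace Pool.Agent.X281.SS

/-- the affine map `v ↦ rho u v + b` -/
@[ext] structure E where
  b : ℤ × ℤ
  u : FreeGroup Bool

instance : Mul E := ⟨fun e f => ⟨e.b + rho e.u f.b, e.u * f.u⟩⟩
instance : One E := ⟨⟨0, 1⟩⟩
instance : Inv E := ⟨fun e => ⟨-(rho e.u⁻¹ e.b), e.u⁻¹⟩⟩

theorem mul_b (e f : E) : (e * f).b = e.b + rho e.u f.b := rfl
theorem mul_u (e f : E) : (e * f).u = e.u * f.u := rfl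
theorem one_b : (1 : E).b = 0 := rfl
theorem one_u : (1 : E).u = 1 := rfl
theorem inv_b (e : E) : (e⁻¹).b = -(rho e.u⁻¹ e.b) := rfl
theorem inv_u (e : E) : (e⁻¹).u = e.u⁻¹ := rfl

instance : Group E := Group.ofLeftAxioms
  (by
    intro e f g
    ext1
    · rw [mul_b, mul_b, mul_b, mul_b, mul_u, map_mul, map_add, add_assoc]; rfl
    · rw [mul_u, mul_u, mul_u, mul_u, mul_assoc])
  (by
    intro e
    ext1
    · rw [mul_b, one_b, one_u, map_one, zero_add]; rfl
    · rw [mul_u, one_u, one_mul])
  (by
    intro e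
    ext1
    · rw [mul_b, inv_b, inv_u, neg_add_cancel, one_b]
    · rw [mul_u, inv_u, inv_mul_cancel, one_u])

/-- the vector of a letter -/
def vec (a : ℕ) : ℤ × ℤ := (((a % 2 : ℕ) : ℤ), ((a / 2 % 2 : ℕ) : ℤ))

/-- the letter of a vector -/
def letter (v : ℤ × ℤ) : ℕ := (v.1 % 2).toNat + 2 * (v.2 % 2).toNat

/-- half of a vector, rounded down -/
def half (v : ℤ × ℤ) : ℤ × ℤ := (v.1 / 2, v.2 / 2)

theorem letter_lt (v : ℤ × ℤ) : letter v < 4 := by
  unfold letter; omega

theorem vec_letter (v : ℤ × ℤ) : vec (letter v) + (2 : ℤ) • half v = v := by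
  ext
  · simp only [vec, letter, half, Prod.fst_add, Prod.smul_fst, smul_eq_mul]; omega
  · simp only [vec, letter, half, Prod.snd_add, Prod.smul_snd, smul_eq_mul]; omega

theorem letter_add (v w : ℤ × ℤ) : letter (v + (2 : ℤ) • w) = letter v := by
  simp only [letter, Prod.fst_add, Prod.smul_fst, smul_eq_mul, Prod.snd_add, Prod.smul_snd]
  congr 2
  · omega
  · congr 1; omega

theorem half_add (v w : ℤ × ℤ) : half (v + (2 : ℤ) • w) = half v + w := by
  ext
  · simp only [half, Prod.fst_add, Prod.smul_fst, smul_eq_mul]; omega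
  · simp only [half, Prod.snd_add, Prod.smul_snd, smul_eq_mul]; omega

theorem letter_vec {a : ℕ} (ha : a < 4) : letter (vec a) = a := by
  simp only [letter, vec]; omega

theorem half_vec (a : ℕ) : half (vec a) = 0 := by
  ext <;> simp only [half, vec, Prod.fst_zero, Prod.snd_zero] <;> omega

/-- the action on a letter -/
def outE (e : E) (a : ℕ) : ℕ := letter (rho e.u (vec a) + e.b)

/-- the section at a letter -/
def secE (e : E) (a : ℕ) : E := ⟨half (rho e.u (vec a) + e.b), e.u⟩

theorem outE_lt (e : E) (a : ℕ) : outE e a < 4 := letter_lt _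

theorem key_mul (e f : E) (a : ℕ) : rho (e * f).u (vec a) + (e * f).b =
    (rho e.u (vec (outE f a)) + e.b) + (2 : ℤ) • rho e.u (half (rho f.u (vec a) + f.b)) := by
  have h := vec_letter (rho f.u (vec a) + f.b)
  rw [mul_u, mul_b, map_mul]
  have h2 : rho e.u (rho f.u (vec a) + f.b) = rho e.u (vec (outE f a)) +
      (2 : ℤ) • rho e.u (half (rho f.u (vec a) + f.b)) := by
    conv_lhs => rw [← h]
    rw [map_add, map_zsmul]
    rfl
  have h3 : (rho e.u * rho f.u) (vec a) + (e.b + rho e.u f.b) =
      rho e.u (rho f.u (vec a) + f.b) + e.b := by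
    rw [map_add]
    change rho e.u (rho f.u (vec a)) + (e.b + rho e.u f.b) = _
    abel
  rw [h3, h2]
  abel

theorem outE_mul (e f : E) (a : ℕ) : outE (e * f) a = outE e (outE f a) := by
  unfold outE
  rw [key_mul, letter_add]
  rfl

theorem secE_mul (e f : E) (a : ℕ) : secE (e * f) a = secE e (outE f a) * secE f a := by
  ext1
  · rw [mul_b]
    change half (rho (e * f).u (vec a) + (e * f).b) = half (rho e.u (vec (outE f a)) + e.b) +
      rho e.u (half (rho f.u (vec a) + f.b))
    rw [key_mul, half_add]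
  · rfl

theorem outE_one {a : ℕ} (ha : a < 4) : outE 1 a = a := by
  unfold outE
  rw [one_u, one_b, map_one, add_zero]
  exact letter_vec ha

theorem secE_one (a : ℕ) : secE 1 a = 1 := by
  ext1
  · change half (rho 1 (vec a) + 0) = 0
    rw [map_one, add_zero]
    exact half_vec a
  · rfl

theorem eq_one_of {S : E → Prop} (hS : ∀ e, S e → ∀ x < 4, outE e x = x ∧ S (secE e x)) {e : E}
    (he : S e) : e = 1 := by
  have h1 : ∀ k : ℕ, ∀ e : E, S e → (2 : ℤ) ^ k ∣ e.b.1 ∧ (2 : ℤ) ^ k ∣ e.b.2 := by
    intro k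
    induction k with
    | zero => intro e _; simp
    | succ k ih =>
      intro e he
      obtain ⟨h2, h3⟩ := hS e he 0 (by norm_num)
      have h4 := ih _ h3
      have h5 : vec 0 = 0 := rfl
      have h6 : (secE e 0).b = half e.b := by
        change half (rho e.u (vec 0) + e.b) = _
        rw [h5, map_zero, zero_add]
      rw [h6] at h4
      have h7 : letter e.b = 0 := by
        have : outE e 0 = letter e.b := by
          unfold outE
          rw [h5, map_zero, zero_add]
        rw [← this, h2]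
      have h8 := vec_letter e.b
      rw [h7, h5, zero_add] at h8
      have h9 : e.b.1 = 2 * (half e.b).1 := by rw [← h8]; simp [half]
      have h10 : e.b.2 = 2 * (half e.b).2 := by rw [← h8]; simp [half]
      rw [h9, h10, pow_succ']
      exact ⟨mul_dvd_mul_left 2 h4.1, mul_dvd_mul_left 2 h4.2⟩
  have h0 : ∀ z : ℤ, (∀ k : ℕ, (2 : ℤ) ^ k ∣ z) → z = 0 := by
    intro z hz
    by_contra hne
    have h2 := Int.le_of_dvd (abs_pos.2 hne) ((dvd_abs _ _).2 (hz z.natAbs))
    have h3 : z.natAbs < 2 ^ z.natAbs := Nat.lt_two_pow_self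
    have h4 : ((z.natAbs : ℕ) : ℤ) < (2 : ℤ) ^ z.natAbs := by exact_mod_cast h3
    rw [Int.natCast_natAbs] at h4
    omega
  have h2 : ∀ e : E, S e → e.b = 0 := by
    intro e he
    ext
    · exact h0 _ fun k => (h1 k e he).1
    · exact h0 _ fun k => (h1 k e he).2
  have h3 : ∀ x < 4, rho e.u (vec x) = vec x := by
    intro x hx
    obtain ⟨h4, h5⟩ := hS e he x hx
    have h6 := h2 _ h5
    have h7 : half (rho e.u (vec x)) = 0 := by
      have : (secE e x).b = half (rho e.u (vec x) + e.b) := rfl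
      rw [this, h2 e he, add_zero] at h6
      exact h6
    have h8 : letter (rho e.u (vec x)) = x := by
      unfold outE at h4
      rwa [h2 e he, add_zero] at h4
    have h9 := vec_letter (rho e.u (vec x))
    rw [h7, h8, smul_zero, add_zero] at h9
    exact h9.symm
  have h4 : rho e.u = 1 := by
    apply LinearEquiv.ext
    intro v
    have e1 := h3 1 (by norm_num)
    have e2 := h3 2 (by norm_num)
    have hv : v = v.1 • vec 1 + v.2 • vec 2 := by
      ext <;> simp [vec]
    rw [hv, map_add, map_smul, map_smul, e1, e2]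
    rfl
  ext1
  · rw [h2 e he]; rfl
  · apply rho_injective
    rw [h4, one_u, map_one]

end Pool.Agent.X281.SS
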