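import Pool.Agent.X281.SS.Grp

/-!
# The states of the automata: words in the four elementary maps with carries
-/

set_option autoImplicit false

namespace Pool.Agent.X281.SS

/-- a word in the elementary maps, with carries -/
abbrev Pat : Type := List ((Bool × Bool) × ℕ)

/-- the letter written by an elementary map -/
def bout (c : Bool × Bool) (v a : ℕ) : ℕ :=
  cond c.1 (a % 2 + 2 * ((a / 2 % 2 + v) % 2)) ((a % 2 + v) % 2 + 2 * (a / 2 % 2))

/-- the next carry of an elementary map -/
def bnext (c : Bool × Bool) (v a : ℕ) : ℕ :=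
  cond c.1
    (cond c.2 ((a / 2 % 2 + v) / 2 + a % 2) ((v + 1 - a / 2 % 2) / 2 + a % 2))
    (cond c.2 ((a % 2 + v) / 2 + a / 2 % 2) ((v + 1 - a % 2) / 2 + a / 2 % 2))

/-- the translation part of an elementary map -/
def bvec (c : Bool × Bool) (v : ℕ) : ℤ × ℤ :=
  cond c.1 (cond c.2 ((0 : ℤ), (v : ℤ)) ((0 : ℤ), -(v : ℤ)))
    (cond c.2 ((v : ℤ), (0 : ℤ)) (-(v : ℤ), (0 : ℤ)))

/-- the value of an elementary map -/
def bval (x : (Bool × Bool) × ℕ) : E := ⟨bvec x.1 x.2, FreeGroup.mk [x.1]⟩

theorem outE_bval (c : Bool × Bool) (v a : ℕ) : outE (bval (c, v)) a = bout c v a := by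
  unfold outE
  change letter (rl c (vec a) + bvec c v) = _
  rcases c with ⟨_ | _, _ | _⟩
  · rw [rl_ff]
    simp only [letter, vec, bvec, bout, cond_false, Prod.fst_add, Prod.snd_add]
    omega
  · rw [rl_ft]
    simp only [letter, vec, bvec, bout, cond_false, cond_true, Prod.fst_add, Prod.snd_add]
    omega
  · rw [rl_tf]
    simp only [letter, vec, bvec, bout, cond_false, cond_true, Prod.fst_add, Prod.snd_add]
    omega
  · rw [rl_tt]
    simp only [letter, vec, bvec, bout, cond_true, Prod.fst_add, Prod.snd_add]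
    omega

theorem secE_bval (c : Bool × Bool) (v a : ℕ) :
    secE (bval (c, v)) a = bval (c, bnext c v a) := by
  refine E.ext ?_ rfl
  change half (rl c (vec a) + bvec c v) = bvec c (bnext c v a)
  rcases c with ⟨_ | _, _ | _⟩
  · rw [rl_ff]
    simp only [half, vec, bvec, bnext, cond_false, Prod.fst_add, Prod.snd_add]
    ext
    · simp only; omega
    · simp only; omega
  · rw [rl_ft]
    simp only [half, vec, bvec, bnext, cond_false, cond_true, Prod.fst_add, Prod.snd_add]
    ext
    · simp only; omega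
    · simp only; omega
  · rw [rl_tf]
    simp only [half, vec, bvec, bnext, cond_false, cond_true, Prod.fst_add, Prod.snd_add]
    ext
    · simp only; omega
    · simp only; omega
  · rw [rl_tt]
    simp only [half, vec, bvec, bnext, cond_true, Prod.fst_add, Prod.snd_add]
    ext
    · simp only; omega
    · simp only; omega

theorem bnext_le {c : Bool × Bool} {v a : ℕ} (hv : v ≤ 2) : bnext c v a ≤ 2 := by
  rcases c with ⟨_ | _, _ | _⟩ <;> simp only [bnext, cond_false, cond_true] <;> omega

/-- one step of a word of elementary maps (the last map acts first) -/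
def step (p : Pat) (a : ℕ) : Pat × ℕ :=
  p.foldr (fun x s => ((x.1, bnext x.1 x.2 s.2) :: s.1, bout x.1 x.2 s.2)) ([], a)

/-- the value of a word of elementary maps -/
def pval (p : Pat) : E := (p.map bval).prod

theorem step_spec (p : Pat) {a : ℕ} (ha : a < 4) :
    outE (pval p) a = (step p a).2 ∧ secE (pval p) a = pval (step p a).1 := by
  induction p with
  | nil =>
    have h1 : pval [] = 1 := rfl
    rw [h1]
    exact ⟨outE_one ha, secE_one a⟩
  | cons x p ih =>
    have h1 : pval (x :: p) = bval x * pval p := by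
      simp [pval]
    have h2 : step (x :: p) a = ((x.1, bnext x.1 x.2 (step p a).2) :: (step p a).1,
      bout x.1 x.2 (step p a).2) := rfl
    rw [h1, h2, outE_mul, secE_mul, ih.1, ih.2]
    refine ⟨outE_bval _ _ _, ?_⟩
    have h3 : secE (bval x) (step p a).2 = bval (x.1, bnext x.1 x.2 (step p a).2) :=
      secE_bval _ _ _
    rw [h3]
    simp [pval]

/-- the shape of a word of elementary maps is preserved and the carries remain bounded -/
theorem step_shape (p : Pat) (a : ℕ) (hp : ∀ x ∈ p, x.2 ≤ 2) :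
    (step p a).1.map Prod.fst = p.map Prod.fst ∧ ∀ x ∈ (step p a).1, x.2 ≤ 2 := by
  induction p with
  | nil => exact ⟨rfl, fun x hx => absurd hx (by simp [step])⟩
  | cons x p ih =>
    have h2 : (step (x :: p) a).1 = (x.1, bnext x.1 x.2 (step p a).2) :: (step p a).1 := rfl
    obtain ⟨h3, h4⟩ := ih (fun y hy => hp y (List.mem_cons_of_mem _ hy))
    rw [h2]
    refine ⟨by simp [h3], fun y hy => ?_⟩
    rcases List.mem_cons.1 hy with rfl | hy
    · exact bnext_le (hp x List.mem_cons_self)
    · exact h4 y hy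

/-- all the words of elementary maps of a given shape -/
def allv (cs : List (Bool × Bool)) : List Pat :=
  cs.foldr (fun c acc => acc.flatMap fun p => [(c, 0) :: p, (c, 1) :: p, (c, 2) :: p]) [[]]

theorem mem_allv (cs : List (Bool × Bool)) (p : Pat) :
    p ∈ allv cs ↔ p.map Prod.fst = cs ∧ ∀ x ∈ p, x.2 ≤ 2 := by
  induction cs generalizing p with
  | nil =>
    change p ∈ [[]] ↔ _
    rw [List.mem_singleton]
    constructor
    · rintro rfl; exact ⟨rfl, fun x hx => absurd hx List.not_mem_nil⟩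
    · rintro ⟨h, -⟩; exact List.map_eq_nil_iff.1 h
  | cons c cs ih =>
    change p ∈ (allv cs).flatMap (fun p => [(c, 0) :: p, (c, 1) :: p, (c, 2) :: p]) ↔ _
    rw [List.mem_flatMap]
    constructor
    · rintro ⟨q, hq, hp⟩
      obtain ⟨h1, h2⟩ := (ih q).1 hq
      simp only [List.mem_cons, List.not_mem_nil, or_false] at hp
      rcases hp with rfl | rfl | rfl
      all_goals
        refine ⟨by simp [h1], fun y hy => ?_⟩
        rcases List.mem_cons.1 hy with rfl | hy
        · norm_num
        · exact h2 y hy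
    · rintro ⟨h1, h2⟩
      rcases p with _ | ⟨⟨d, v⟩, q⟩
      · simp at h1
      · rw [List.map_cons] at h1
        have h3 : d = c := List.head_eq_of_cons_eq h1
        have h4 : q.map Prod.fst = cs := List.tail_eq_of_cons_eq h1
        have h5 := h2 (d, v) List.mem_cons_self
        refine ⟨q, (ih q).2 ⟨h4, fun y hy => h2 y (List.mem_cons_of_mem _ hy)⟩, ?_⟩
        subst h3
        simp only at h5
        have h6 : v = 0 ∨ v = 1 ∨ v = 2 := by omega
        rcases h6 with rfl | rfl | rfl <;> simp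

/-- the states -/
abbrev St : Type := Pat × Pat × Bool

/-- the shapes of the states -/
abbrev Sh : Type := List (Bool × Bool) × List (Bool × Bool) × Bool

/-- the next state -/
def nxt (s : St) (a : ℕ) : St := ((step s.1 (a % 4)).1, (step s.2.1 (a / 4 % 4)).1, s.2.2)

/-- the letter written -/
def outp (s : St) (a : ℕ) : ℕ :=
  (step s.1 (a % 4)).2 + 4 * (step s.2.1 (a / 4 % 4)).2 + 16 * ((a / 16 + cond s.2.2 1 0) % 2)

/-- the value of a state -/
def sval (s : St) : G0 := (pval s.1, pval s.2.1, Multiplicative.ofAdd (cond s.2.2 1 0))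

theorem out0_sval (s : St) (a : ℕ) : out0 (sval s) a = outp s a := by
  unfold out0 outp
  have h1 := (step_spec s.1 (a := a % 4) (Nat.mod_lt _ (by norm_num))).1
  have h2 := (step_spec s.2.1 (a := a / 4 % 4) (Nat.mod_lt _ (by norm_num))).1
  have h3 : (sval s).2.2.toAdd.val = cond s.2.2 1 0 := by
    obtain ⟨p, q, e⟩ := s
    cases e <;> rfl
  rw [h3]
  change outE (pval s.1) (a % 4) + 4 * outE (pval s.2.1) (a / 4 % 4) + _ = _
  rw [h1, h2]

theorem sec0_sval (s : St) (a : ℕ) : sec0 (sval s) a = sval (nxt s a) := by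
  have h1 := (step_spec s.1 (a := a % 4) (Nat.mod_lt _ (by norm_num))).2
  have h2 := (step_spec s.2.1 (a := a / 4 % 4) (Nat.mod_lt _ (by norm_num))).2
  exact Prod.ext h1 (Prod.ext h2 rfl)

/-- the states of a given shape -/
def shStates (c : Sh) : List St := (allv c.1).flatMap fun p => (allv c.2.1).map fun q => (p, q, c.2.2)

theorem mem_shStates (c : Sh) (s : St) :
    s ∈ shStates c ↔ (s.1 ∈ allv c.1 ∧ s.2.1 ∈ allv c.2.1) ∧ s.2.2 = c.2.2 := by
  unfold shStates
  rw [List.mem_flatMap]
  constructor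
  · rintro ⟨p, hp, h⟩
    obtain ⟨q, hq, rfl⟩ := List.mem_map.1 h
    exact ⟨⟨hp, hq⟩, rfl⟩
  · rintro ⟨⟨h1, h2⟩, h3⟩
    exact ⟨s.1, h1, List.mem_map.2 ⟨s.2.1, h2, by rw [← h3]⟩⟩

theorem nxt_mem {c : Sh} {s : St} (hs : s ∈ shStates c) (a : ℕ) : nxt s a ∈ shStates c := by
  rw [mem_shStates] at hs ⊢
  obtain ⟨⟨h1, h2⟩, h3⟩ := hs
  rw [mem_allv] at h1 h2
  refine ⟨⟨?_, ?_⟩, h3⟩
  · rw [mem_allv]
    have := step_shape s.1 (a % 4) h1.2
    exact ⟨this.1.trans h1.1, this.2⟩
  · rw [mem_allv]
    have := step_shape s.2.1 (a / 4 % 4) h2.2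
    exact ⟨this.1.trans h2.1, this.2⟩

/-- the states of a list of shapes -/
def states (l : List Sh) : List St := l.flatMap shStates

theorem nxt_mem_states {l : List Sh} {s : St} (hs : s ∈ states l) (a : ℕ) :
    nxt s a ∈ states l := by
  obtain ⟨c, hc, h⟩ := List.mem_flatMap.1 hs
  exact List.mem_flatMap.2 ⟨c, hc, nxt_mem h a⟩

/-! ### The linear part of a word of elementary maps -/

theorem pval_u (p : Pat) : (pval p).u = FreeGroup.mk (p.map Prod.fst) := by
  induction p with
  | nil => rfl
  | cons x p ih =>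
    have h1 : pval (x :: p) = bval x * pval p := by simp [pval]
    rw [h1, mul_u, ih, List.map_cons]
    change FreeGroup.mk [x.1] * _ = _
    rw [FreeGroup.mul_mk]
    rfl

theorem pval_zero (cs : List (Bool × Bool)) :
    pval (cs.map fun c => (c, 0)) = linE (FreeGroup.mk cs) := by
  induction cs with
  | nil => rfl
  | cons c cs ih =>
    have h1 : pval ((c :: cs).map fun c => (c, 0)) =
        bval (c, 0) * pval (cs.map fun c => (c, 0)) := by simp [pval]
    have h2 : bval (c, 0) = linE (FreeGroup.mk [c]) := by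
      refine E.ext ?_ rfl
      rcases c with ⟨_ | _, _ | _⟩ <;> simp [bval, bvec, linE]
    rw [h1, ih, h2, ← map_mul, FreeGroup.mul_mk]
    rfl

theorem zero_mem (cs : List (Bool × Bool)) : (cs.map fun c => (c, 0)) ∈ allv cs := by
  rw [mem_allv]
  refine ⟨?_, ?_⟩
  · rw [List.map_map]
    exact List.map_id cs
  · intro x hx
    obtain ⟨c, -, rfl⟩ := List.mem_map.1 hx
    norm_num

/-- the linear element of a shape -/
def lsh (c : Sh) : G0 :=
  (linE (FreeGroup.mk c.1), linE (FreeGroup.mk c.2.1), Multiplicative.ofAdd (cond c.2.2 1 0))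

/-- the translations -/
def trG (b1 b2 : ℤ × ℤ) : G0 := (trE b1, trE b2, 1)

theorem sval_eq {c : Sh} {s : St} (hs : s ∈ shStates c) :
    sval s = trG (pval s.1).b (pval s.2.1).b * lsh c := by
  rw [mem_shStates, mem_allv, mem_allv] at hs
  obtain ⟨⟨⟨h1, -⟩, h2, -⟩, h3⟩ := hs
  refine Prod.ext ?_ (Prod.ext ?_ ?_)
  · change pval s.1 = trE _ * linE _
    rw [trE_mul_linE, ← h1, ← pval_u]
  · change pval s.2.1 = trE _ * linE _
    rw [trE_mul_linE, ← h2, ← pval_u]
  · change Multiplicative.ofAdd (cond s.2.2 1 0) = 1 * Multiplicative.ofAdd (cond c.2.2 1 0)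
    rw [one_mul, h3]

theorem exists_lsh (c : Sh) : ∃ s ∈ shStates c, sval s = lsh c := by
  refine ⟨(c.1.map fun c => (c, 0), c.2.1.map fun c => (c, 0), c.2.2), ?_, ?_⟩
  · rw [mem_shStates]
    exact ⟨⟨zero_mem _, zero_mem _⟩, rfl⟩
  · refine Prod.ext ?_ (Prod.ext ?_ rfl)
    · exact pval_zero _
    · exact pval_zero _

end Pool.Agent.X281.SS
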