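import Pool.Agent.X281.SS.Gen

/-!
# The tables of the automata are computed from the words
-/

set_option autoImplicit false

namespace Pool.Agent.X281.SS

open Primrec

theorem prim_bout : Primrec fun t : ((Bool × Bool) × ℕ) × ℕ => bout t.1.1 t.1.2 t.2 := by
  have h1 : Primrec fun t : ((Bool × Bool) × ℕ) × ℕ => t.1.1.1 := fst.comp (fst.comp fst)
  have hv : Primrec fun t : ((Bool × Bool) × ℕ) × ℕ => t.1.2 := snd.comp fst
  have ha : Primrec fun t : ((Bool × Bool) × ℕ) × ℕ => t.2 := snd
  have hx : Primrec fun t : ((Bool × Bool) × ℕ) × ℕ => t.2 % 2 := nat_mod.comp ha (const 2)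
  have hy : Primrec fun t : ((Bool × Bool) × ℕ) × ℕ => t.2 / 2 % 2 :=
    nat_mod.comp (nat_div.comp ha (const 2)) (const 2)
  exact Primrec.cond h1
    (nat_add.comp hx (nat_mul.comp (const 2) (nat_mod.comp (nat_add.comp hy hv) (const 2))))
    (nat_add.comp (nat_mod.comp (nat_add.comp hx hv) (const 2)) (nat_mul.comp (const 2) hy))

theorem prim_bnext : Primrec fun t : ((Bool × Bool) × ℕ) × ℕ => bnext t.1.1 t.1.2 t.2 := by
  have h1 : Primrec fun t : ((Bool × Bool) × ℕ) × ℕ => t.1.1.1 := fst.comp (fst.comp fst)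
  have h2 : Primrec fun t : ((Bool × Bool) × ℕ) × ℕ => t.1.1.2 := snd.comp (fst.comp fst)
  have hv : Primrec fun t : ((Bool × Bool) × ℕ) × ℕ => t.1.2 := snd.comp fst
  have ha : Primrec fun t : ((Bool × Bool) × ℕ) × ℕ => t.2 := snd
  have hx : Primrec fun t : ((Bool × Bool) × ℕ) × ℕ => t.2 % 2 := nat_mod.comp ha (const 2)
  have hy : Primrec fun t : ((Bool × Bool) × ℕ) × ℕ => t.2 / 2 % 2 :=
    nat_mod.comp (nat_div.comp ha (const 2)) (const 2)
  have hv1 : Primrec fun t : ((Bool × Bool) × ℕ) × ℕ => t.1.2 + 1 := nat_add.comp hv (const 1)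
  exact Primrec.cond h1
    (Primrec.cond h2
      (nat_add.comp (nat_div.comp (nat_add.comp hy hv) (const 2)) hx)
      (nat_add.comp (nat_div.comp (nat_sub.comp hv1 hy) (const 2)) hx))
    (Primrec.cond h2
      (nat_add.comp (nat_div.comp (nat_add.comp hx hv) (const 2)) hy)
      (nat_add.comp (nat_div.comp (nat_sub.comp hv1 hx) (const 2)) hy))

theorem prim_step : Primrec₂ step := by
  have hx : Primrec fun t : (Pat × ℕ) × (((Bool × Bool) × ℕ) × (Pat × ℕ)) =>
      ((t.2.1, t.2.2.2) : ((Bool × Bool) × ℕ) × ℕ) :=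
    pair (fst.comp snd) (snd.comp (snd.comp snd))
  have h1 : Primrec₂ (fun (_ : Pat × ℕ) (y : ((Bool × Bool) × ℕ) × (Pat × ℕ)) =>
      (((y.1.1, bnext y.1.1 y.1.2 y.2.2) :: y.2.1, bout y.1.1 y.1.2 y.2.2) : Pat × ℕ)) := by
    apply Primrec.pair
    · refine list_cons.comp (pair (fst.comp (fst.comp snd)) ?_) (fst.comp (snd.comp snd))
      exact prim_bnext.comp hx
    · exact prim_bout.comp hx
  exact Primrec.list_foldr (f := fun t : Pat × ℕ => t.1)
    (g := fun t : Pat × ℕ => (([], t.2) : Pat × ℕ))
    (h := fun (_ : Pat × ℕ) (y : ((Bool × Bool) × ℕ) × (Pat × ℕ)) =>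
      (((y.1.1, bnext y.1.1 y.1.2 y.2.2) :: y.2.1, bout y.1.1 y.1.2 y.2.2) : Pat × ℕ))
    fst (pair (const []) snd) h1

theorem prim_allv : Primrec allv := by
  have h1 : Primrec₂ (fun (_ : List (Bool × Bool)) (y : (Bool × Bool) × List Pat) =>
      y.2.flatMap fun p => [(y.1, 0) :: p, (y.1, 1) :: p, (y.1, 2) :: p]) := by
    have hk : ∀ k : ℕ, Primrec fun t : (List (Bool × Bool) × ((Bool × Bool) × List Pat)) × Pat =>
        ((t.1.2.1, k) :: t.2 : Pat) := fun k =>
      list_cons.comp (pair (fst.comp (snd.comp fst)) (const k)) snd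
    refine Primrec.list_flatMap (f := fun t : List (Bool × Bool) × ((Bool × Bool) × List Pat) => t.2.2)
      (g := fun (t : List (Bool × Bool) × ((Bool × Bool) × List Pat)) (p : Pat) =>
        [(t.2.1, 0) :: p, (t.2.1, 1) :: p, (t.2.1, 2) :: p]) (snd.comp snd) ?_
    exact list_cons.comp (hk 0) (list_cons.comp (hk 1) (list_cons.comp (hk 2) (const [])))
  exact Primrec.list_foldr (f := fun t : List (Bool × Bool) => t)
    (g := fun _ : List (Bool × Bool) => ([[]] : List Pat))
    (h := fun (_ : List (Bool × Bool)) (y : (Bool × Bool) × List Pat) =>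
      y.2.flatMap fun p => [(y.1, 0) :: p, (y.1, 1) :: p, (y.1, 2) :: p])
    Primrec.id (const [[]]) h1

theorem prim_shStates : Primrec shStates := by
  refine Primrec.list_flatMap (f := fun c : Sh => allv c.1)
    (g := fun (c : Sh) (p : Pat) => (allv c.2.1).map fun q => ((p, q, c.2.2) : St))
    (prim_allv.comp fst) ?_
  refine Primrec.list_map (f := fun t : Sh × Pat => allv t.1.2.1)
    (g := fun (t : Sh × Pat) (q : Pat) => ((t.2, q, t.1.2.2) : St))
    (prim_allv.comp (fst.comp (snd.comp fst))) ?_
  exact pair (snd.comp fst) (pair snd (snd.comp (snd.comp (fst.comp fst))))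

theorem prim_states : Primrec states :=
  Primrec.list_flatMap (f := fun l : List Sh => l) (g := fun _ c => shStates c) Primrec.id
    (prim_shStates.comp snd)

theorem prim_nxt : Primrec₂ nxt := by
  have h1 : Primrec fun t : St × ℕ => step t.1.1 (t.2 % 4) :=
    prim_step.comp (fst.comp fst) (nat_mod.comp snd (const 4))
  have h2 : Primrec fun t : St × ℕ => step t.1.2.1 (t.2 / 4 % 4) :=
    prim_step.comp (fst.comp (snd.comp fst)) (nat_mod.comp (nat_div.comp snd (const 4)) (const 4))
  exact pair (fst.comp h1) (pair (fst.comp h2) (snd.comp (snd.comp fst)))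

theorem prim_outp : Primrec₂ outp := by
  have h1 : Primrec fun t : St × ℕ => step t.1.1 (t.2 % 4) :=
    prim_step.comp (fst.comp fst) (nat_mod.comp snd (const 4))
  have h2 : Primrec fun t : St × ℕ => step t.1.2.1 (t.2 / 4 % 4) :=
    prim_step.comp (fst.comp (snd.comp fst)) (nat_mod.comp (nat_div.comp snd (const 4)) (const 4))
  have h3 : Primrec fun t : St × ℕ => cond t.1.2.2 1 0 :=
    Primrec.cond (snd.comp (snd.comp fst)) (const 1) (const 0)
  exact nat_add.comp (nat_add.comp (snd.comp h1) (nat_mul.comp (const 4) (snd.comp h2)))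
    (nat_mul.comp (const 16) (nat_mod.comp
      (nat_add.comp (nat_div.comp snd (const 16)) h3) (const 2)))

theorem idxOf_eq {α : Type} (i1 i2 : BEq α) (h1 : @LawfulBEq α i1) (h2 : @LawfulBEq α i2)
    (l : List α) (a : α) : @List.idxOf α i1 a l = @List.idxOf α i2 a l := by
  have h : i1 = i2 := lawful_beq_subsingleton i1 i2
  subst h
  rfl

/-- the tables of a list of states -/
def tabS (L : List St) : List (List (ℕ × ℕ)) :=
  L.map fun s => (List.range 32).map fun a => (L.idxOf (nxt s a), outp s a)

theorem prim_tabS : Primrec tabS := by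
  classical
  refine Primrec.list_map (f := fun L : List St => L)
    (g := fun (L : List St) (s : St) => (List.range 32).map fun a => (L.idxOf (nxt s a), outp s a))
    Primrec.id ?_
  refine Primrec.list_map (f := fun _ : List St × St => List.range 32)
    (g := fun (t : List St × St) (a : ℕ) => (t.1.idxOf (nxt t.2 a), outp t.2 a)) (const _) ?_
  have hn : Primrec fun t : (List St × St) × ℕ => nxt t.1.2 t.2 :=
    prim_nxt.comp (snd.comp fst) snd
  refine pair ?_ (prim_outp.comp (snd.comp fst) snd)
  have h1 := (Primrec.list_idxOf (α := St)).comp hn (fst.comp fst)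
  refine h1.of_eq fun t => ?_
  exact idxOf_eq _ _ inferInstance inferInstance _ _

theorem code_autOf (L : List St) (hL : ∀ s ∈ L, ∀ a, nxt s a ∈ L) :
    (autOf L hL).code = tabS L := by
  unfold Automaton.code tabS
  apply List.ext_getElem
  · simp
  · intro i h1 h2
    rw [List.getElem_ofFn, List.getElem_map]
    apply List.ext_getElem
    · simp
    · intro j h3 h4
      rw [List.getElem_ofFn, List.getElem_map, List.getElem_range]
      rfl

theorem prim_cw : Primrec₂ cw := by
  have h1 : Primrec fun t : ℕ × Bool => (List.range t.1).map fun _ => (true, true) :=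
    Primrec.list_map (f := fun t : ℕ × Bool => List.range t.1)
      (g := fun (_ : ℕ × Bool) (_ : ℕ) => (true, true)) (list_range.comp fst) (const _)
  have h2 : Primrec fun t : ℕ × Bool => (List.range t.1).map fun _ => (true, false) :=
    Primrec.list_map (f := fun t : ℕ × Bool => List.range t.1)
      (g := fun (_ : ℕ × Bool) (_ : ℕ) => (true, false)) (list_range.comp fst) (const _)
  exact list_append.comp h1 (list_cons.comp (pair (const false) snd) h2)

theorem prim_embW : Primrec embW :=
  Primrec.list_flatMap (f := fun L : List (ℕ × Bool) => L) (g := fun _ x => cw x.1 x.2)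
    Primrec.id (prim_cw.comp (fst.comp snd) (snd.comp snd))

theorem prim_invW : Primrec invW :=
  list_reverse.comp (Primrec.list_map (f := fun L : List (ℕ × Bool) => L)
    (g := fun _ (x : ℕ × Bool) => (x.1, !x.2)) Primrec.id
    (pair (fst.comp snd) (Primrec.not.comp (snd.comp snd))))

theorem prim_comW (i : ℕ) : Primrec (comW i) :=
  list_append.comp Primrec.id (list_cons.comp (const (i, true))
    (list_append.comp prim_invW (const [(i, false)])))

theorem prim_shapes (m : ℕ) (RL : List (List (ℕ × Bool))) : Primrec (shapes m RL) := by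
  refine list_append.comp (const _) (list_cons.comp ?_ (const []))
  exact pair (prim_embW.comp ((prim_comW (m + 1)).comp (prim_comW m))) (const ([], true))

end Pool.Agent.X281.SS
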