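import Pool.Agent.X281.SS.Aut

/-!
# Automata and the groups generated by them
-/

set_option autoImplicit false

namespace Pool.Agent.X281.SS

/-- A finite invertible automaton with `m` states over the alphabet `Fin n`. -/
structure Automaton (m n : ℕ) where
  /-- the transition map -/
  next : Fin m → Fin n → Fin m
  /-- the output map -/
  out : Fin m → Fin n → Fin n
  /-- every state permutes the letters -/
  bij : ∀ s, Function.Bijective (out s)

namespace Automaton

variable {m n : ℕ} (A : Automaton m n)

/-- The action of a state on the words. -/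
def run : Fin m → List (Fin n) → List (Fin n)
  | _, [] => []
  | s, x :: w => A.out s x :: run (A.next s x) w

theorem run_injective (w w' : List (Fin n)) (s : Fin m) (h : A.run s w = A.run s w') : w = w' := by
  induction w generalizing w' s with
  | nil =>
    cases w' with
    | nil => rfl
    | cons y w' => simp [run] at h
  | cons x w ih =>
    cases w' with
    | nil => simp [run] at h
    | cons y w' =>
      simp only [run, List.cons.injEq] at h
      have h1 := (A.bij s).1 h.1
      subst h1
      rw [ih _ _ h.2]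

theorem run_surjective (w : List (Fin n)) (s : Fin m) : ∃ v, A.run s v = w := by
  induction w generalizing s with
  | nil => exact ⟨[], rfl⟩
  | cons y w ih =>
    obtain ⟨x, hx⟩ := (A.bij s).2 y
    obtain ⟨v, hv⟩ := ih (A.next s x)
    exact ⟨x :: v, by simp only [run, hx, hv]⟩

theorem run_bijective (s : Fin m) : Function.Bijective (A.run s) :=
  ⟨fun w w' h => A.run_injective w w' s h, fun w => A.run_surjective w s⟩

/-- The permutation of the set of words given by a state. -/
noncomputable def perm (s : Fin m) : Equiv.Perm (List (Fin n)) :=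
  Equiv.ofBijective (A.run s) (A.run_bijective s)

/-- The group generated by the states. -/
noncomputable def group : Subgroup (Equiv.Perm (List (Fin n))) :=
  Subgroup.closure (Set.range A.perm)

/-- The tables of the automaton: the list, over the states `s`, of the lists, over the letters `x`,
of the pairs (next state, written letter). -/
def code : List (List (ℕ × ℕ)) :=
  List.ofFn fun s : Fin m => List.ofFn fun x : Fin n => ((A.next s x : ℕ), (A.out s x : ℕ))

end Automaton

/-! ### The automaton of a closed list of states -/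

theorem outp_lt (s : St) (a : ℕ) : outp s a < 32 := by
  rw [← out0_sval]; exact out0_lt _ _

/-- the automaton of a list of states -/
def autOf (L : List St) (hL : ∀ s ∈ L, ∀ a, nxt s a ∈ L) : Automaton L.length 32 where
  next s a := ⟨L.idxOf (nxt L[s] a), List.idxOf_lt_length_iff.2 (hL _ (List.getElem_mem _) _)⟩
  out s a := ⟨outp L[s] a, outp_lt _ _⟩
  bij s := by
    apply Finite.injective_iff_bijective.1
    intro a b h
    have h1 : outp L[s] a = outp L[s] b := congrArg Fin.val h
    rw [← out0_sval, ← out0_sval] at h1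
    have h2 : ∀ c : Fin 32, out0 (sval L[s])⁻¹ (out0 (sval L[s]) c) = c := by
      intro c
      rw [← out0_mul, inv_mul_cancel, out0_one c.2]
    have h3 := h2 a
    rw [h1, h2 b] at h3
    exact Fin.ext h3.symm

theorem autOf_run (L : List St) (hL : ∀ s ∈ L, ∀ a, nxt s a ∈ L) (s : Fin L.length)
    (w : List (Fin 32)) : (autOf L hL).run s w = act (sval L[s]) w := by
  induction w generalizing s with
  | nil => rfl
  | cons a w ih =>
    change (autOf L hL).out s a :: (autOf L hL).run ((autOf L hL).next s a) w =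
      outF (sval L[s]) a :: act (sec0 (sval L[s]) a) w
    rw [ih]
    congr 1
    · exact Fin.ext (out0_sval _ _).symm
    · rw [sec0_sval]
      congr 2
      change L[L.idxOf (nxt L[s] a)]'(List.idxOf_lt_length_iff.2 (hL _ (List.getElem_mem _) _)) = _
      exact List.getElem_idxOf _

theorem autOf_perm (L : List St) (hL : ∀ s ∈ L, ∀ a, nxt s a ∈ L) (s : Fin L.length) :
    (autOf L hL).perm s = Psi (sval L[s]) := by
  apply Equiv.ext
  intro w
  exact autOf_run L hL s w

theorem autOf_group (L : List St) (hL : ∀ s ∈ L, ∀ a, nxt s a ∈ L) :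
    (autOf L hL).group = (Subgroup.closure {g | ∃ s ∈ L, g = sval s}).map Psi := by
  rw [Automaton.group, MonoidHom.map_closure]
  congr 1
  ext g
  constructor
  · rintro ⟨s, rfl⟩
    exact ⟨sval L[s], ⟨L[s], List.getElem_mem _, rfl⟩, (autOf_perm L hL s).symm⟩
  · rintro ⟨x, ⟨s, hs, rfl⟩, rfl⟩
    obtain ⟨i, hi, rfl⟩ := List.getElem_of_mem hs
    exact ⟨⟨i, hi⟩, autOf_perm L hL _⟩

/-- the abstract group -/
noncomputable def autOf_equiv (L : List St) (hL : ∀ s ∈ L, ∀ a, nxt s a ∈ L) :
    (autOf L hL).group ≃* Subgroup.closure {g | ∃ s ∈ L, g = sval s} :=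
  (MulEquiv.subgroupCongr (autOf_group L hL)).trans
    (Subgroup.equivMapOfInjective _ Psi Psi_injective).symm

/-! ### The shapes attached to a word -/

/-- the word of a generator in the free group of rank two -/
def cw (i : ℕ) (b : Bool) : List (Bool × Bool) :=
  (List.range i).map (fun _ => (true, true)) ++ ((false, b) :: (List.range i).map fun _ => (true, false))

/-- the word in the free group of rank two -/
def embW (L : List (ℕ × Bool)) : List (Bool × Bool) := L.flatMap fun x => cw x.1 x.2

theorem mk_cw (i : ℕ) (b : Bool) : FreeGroup.mk (cw i b) = emb (FreeGroup.mk [(i, b)]) := by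
  have h1 : ∀ (i : ℕ), FreeGroup.mk ((List.range i).map fun _ => (true, true)) =
      FreeGroup.of true ^ i := by
    intro i
    induction i with
    | zero => rfl
    | succ i ih =>
      rw [List.range_succ, List.map_append, ← FreeGroup.mul_mk, ih, pow_succ]
      rfl
  have h2 : ∀ (i : ℕ), FreeGroup.mk ((List.range i).map fun _ => (true, false)) =
      (FreeGroup.of true ^ i)⁻¹ := by
    intro i
    induction i with
    | zero => simp; rfl
    | succ i ih =>
      rw [List.range_succ, List.map_append, ← FreeGroup.mul_mk, ih, pow_succ', mul_inv_rev]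
      rfl
  have h3 : cw i b = (List.range i).map (fun _ => (true, true)) ++
      ([(false, b)] ++ (List.range i).map fun _ => (true, false)) := rfl
  rw [h3, ← FreeGroup.mul_mk, ← FreeGroup.mul_mk, h1, h2]
  cases b
  · have h4 : (FreeGroup.mk [(i, false)] : FreeGroup ℕ) = (FreeGroup.of i)⁻¹ := rfl
    have h5 : (FreeGroup.mk [(false, false)] : FreeGroup Bool) = (FreeGroup.of false)⁻¹ := rfl
    rw [h4, h5, map_inv, emb, FreeGroup.lift_apply_of]
    group
  · have h4 : (FreeGroup.mk [(i, true)] : FreeGroup ℕ) = (FreeGroup.of i) := rfl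
    have h5 : (FreeGroup.mk [(false, true)] : FreeGroup Bool) = (FreeGroup.of false) := rfl
    rw [h4, h5, emb, FreeGroup.lift_apply_of]
    group

theorem mk_embW (L : List (ℕ × Bool)) : FreeGroup.mk (embW L) = emb (FreeGroup.mk L) := by
  induction L with
  | nil => exact (map_one emb).symm
  | cons x L ih =>
    have h1 : embW (x :: L) = cw x.1 x.2 ++ embW L := rfl
    have h2 : (FreeGroup.mk (x :: L)) = FreeGroup.mk [x] * FreeGroup.mk L := by
      rw [FreeGroup.mul_mk]; rfl
    rw [h1, ← FreeGroup.mul_mk, ih, mk_cw, h2, map_mul]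

/-- the inverse word -/
def invW (L : List (ℕ × Bool)) : List (ℕ × Bool) := (L.map fun x => (x.1, !x.2)).reverse

theorem mk_invW (L : List (ℕ × Bool)) : FreeGroup.mk (invW L) = (FreeGroup.mk L)⁻¹ :=
  (FreeGroup.inv_mk (L := L)).symm

/-- the word of the commutator with a generator -/
def comW (i : ℕ) (L : List (ℕ × Bool)) : List (ℕ × Bool) :=
  L ++ ((i, true) :: (invW L ++ [(i, false)]))

theorem mk_comW (i : ℕ) (L : List (ℕ × Bool)) :
    FreeGroup.mk (comW i L) = FreeGroup.mk L * FreeGroup.of i * (FreeGroup.mk L)⁻¹ *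
      (FreeGroup.of i)⁻¹ := by
  have h1 : comW i L = L ++ ([(i, true)] ++ (invW L ++ [(i, false)])) := rfl
  rw [h1, ← FreeGroup.mul_mk, ← FreeGroup.mul_mk, ← FreeGroup.mul_mk, mk_invW, mul_assoc, mul_assoc]
  rfl

/-- the shapes of the states of the automaton -/
def shapes (m : ℕ) (RL : List (List (ℕ × Bool))) (L : List (ℕ × Bool)) : List Sh :=
  (([([(false, true), (false, false)], [], false), ([(true, true), (true, false)], [], false),
    ([], [(false, true), (false, false)], false), ([], [(true, true), (true, false)], false)] ++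
    (List.range (m + 2)).map fun i => (cw i true, cw i true, false)) ++
    RL.map fun r => (embW r, [], false)) ++ [(embW (comW (m + 1) (comW m L)), [], true)]

theorem mk_c (c : Bool) : (FreeGroup.mk [(c, true), (c, false)] : FreeGroup Bool) = 1 := by
  have h1 : (FreeGroup.mk [(c, true), (c, false)] : FreeGroup Bool) =
    FreeGroup.mk [(c, true)] * FreeGroup.mk [(c, false)] := by rw [FreeGroup.mul_mk]; rfl
  rw [h1]
  exact mul_inv_cancel (FreeGroup.of c)

/-- the linear parts of the shapes -/
theorem lsh_mem {m : ℕ} (R : Finset (FreeGroup (Fin m))) {RL : List (List (ℕ × Bool))}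
    (hRL : ∀ p : FreeGroup ℕ, (∃ r ∈ RL, FreeGroup.mk r = p) ↔ ∃ r ∈ R, jj m r = p)
    {L : List (ℕ × Bool)} {w : FreeGroup (Fin m)} (hL : FreeGroup.mk L = jj m w)
    {c : Sh} (hc : c ∈ shapes m RL L) : lsh c ∈ Gam R w := by
  have hwt : FreeGroup.mk (comW (m + 1) (comW m L)) = wt w := by
    rw [mk_comW, mk_comW, hL]
    rfl
  have hone : (1 : G0) ∈ Gam R w := one_mem _
  unfold shapes at hc
  rw [List.mem_append, List.mem_append, List.mem_append, List.mem_singleton, List.mem_map,
    List.mem_map] at hc
  rcases hc with ((hc | ⟨i, hi, rfl⟩) | ⟨r, hr, rfl⟩) | rfl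
  · simp only [List.mem_cons, List.not_mem_nil, or_false] at hc
    have key : lsh c = 1 := by
      rcases hc with rfl | rfl | rfl | rfl
      · refine Prod.ext ?_ (Prod.ext ?_ rfl)
        · change linE (FreeGroup.mk _) = 1
          rw [mk_c, map_one]
        · rfl
      · refine Prod.ext ?_ (Prod.ext ?_ rfl)
        · change linE (FreeGroup.mk _) = 1
          rw [mk_c, map_one]
        · rfl
      · refine Prod.ext ?_ (Prod.ext ?_ rfl)
        · rfl
        · change linE (FreeGroup.mk _) = 1
          rw [mk_c, map_one]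
      · refine Prod.ext ?_ (Prod.ext ?_ rfl)
        · rfl
        · change linE (FreeGroup.mk _) = 1
          rw [mk_c, map_one]
    rw [key]
    exact hone
  · rw [List.mem_range] at hi
    have h1 : lsh (cw i true, cw i true, false) = del (FreeGroup.of i) := by
      refine Prod.ext ?_ (Prod.ext ?_ rfl)
      · change linE (FreeGroup.mk _) = _
        rw [mk_cw]; rfl
      · change linE (FreeGroup.mk _) = _
        rw [mk_cw]; rfl
    rw [h1]
    exact Subgroup.subset_closure (Or.inr (Or.inl (Or.inr ⟨i, hi, rfl⟩)))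
  · have h1 : lsh (embW r, [], false) = lam (FreeGroup.mk r) := by
      refine Prod.ext ?_ (Prod.ext rfl rfl)
      change linE (FreeGroup.mk _) = _
      rw [mk_embW]; rfl
    obtain ⟨r', hr', h2⟩ := (hRL _).1 ⟨r, hr, rfl⟩
    rw [h1]
    exact Subgroup.subset_closure (Or.inr (Or.inr ⟨r', hr', by rw [h2]⟩))
  · have h1 : lsh (embW (comW (m + 1) (comW m L)), [], true) = lam (wt w) * tt := by
      refine Prod.ext ?_ (Prod.ext rfl rfl)
      change linE (FreeGroup.mk _) = _ * 1
      rw [mk_embW, hwt, mul_one]; rfl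
    rw [h1]
    exact Subgroup.subset_closure (Or.inl rfl)

theorem trG_mul (b b' c c' : ℤ × ℤ) : trG b c * trG b' c' = trG (b + b') (c + c') := by
  have h : ∀ b b' : ℤ × ℤ, trE b * trE b' = trE (b + b') := by
    intro b b'
    refine E.ext ?_ (one_mul 1)
    rw [mul_b]
    change b + rho 1 b' = b + b'
    rw [map_one]; rfl
  exact Prod.ext (h _ _) (Prod.ext (h _ _) (one_mul 1))

theorem closure_states {m : ℕ} (R : Finset (FreeGroup (Fin m))) {RL : List (List (ℕ × Bool))}
    (hRL : ∀ p : FreeGroup ℕ, (∃ r ∈ RL, FreeGroup.mk r = p) ↔ ∃ r ∈ R, jj m r = p)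
    {L : List (ℕ × Bool)} {w : FreeGroup (Fin m)} (hL : FreeGroup.mk L = jj m w) :
    Subgroup.closure {g | ∃ s ∈ states (shapes m RL L), g = sval s} = Gam R w := by
  apply le_antisymm
  · rw [Subgroup.closure_le]
    rintro g ⟨s, hs, rfl⟩
    obtain ⟨c, hc, h⟩ := List.mem_flatMap.1 hs
    rw [sval_eq h]
    refine mul_mem ?_ (lsh_mem R hRL hL hc)
    exact Subgroup.subset_closure (Or.inr (Or.inl (Or.inl ⟨_, _, rfl⟩)))
  · set H := Subgroup.closure {g | ∃ s ∈ states (shapes m RL L), g = sval s} with hH
    have hlsh : ∀ c ∈ shapes m RL L, lsh c ∈ H := by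
      intro c hc
      obtain ⟨s, hs, h⟩ := exists_lsh c
      rw [← h]
      exact Subgroup.subset_closure ⟨s, List.mem_flatMap.2 ⟨c, hc, hs⟩, rfl⟩
    have hst : ∀ c ∈ shapes m RL L, ∀ s ∈ shStates c, sval s ∈ H := by
      intro c hc s hs
      exact Subgroup.subset_closure ⟨s, List.mem_flatMap.2 ⟨c, hc, hs⟩, rfl⟩
    have e1 : ∀ c : Bool, ([(c, true), (c, false)], ([] : List (Bool × Bool)), false) ∈
        shapes m RL L := by
      intro c; cases c <;> simp [shapes]
    have e2 : ∀ c : Bool, (([] : List (Bool × Bool)), [(c, true), (c, false)], false) ∈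
        shapes m RL L := by
      intro c; cases c <;> simp [shapes]
    have bv : ∀ c : Bool, pval [((c, true), 1), ((c, false), 0)] = trE (bvec (c, true) 1) := by
      intro c
      have h1 : pval [((c, true), 1), ((c, false), 0)] = bval ((c, true), 1) * bval ((c, false), 0) := by
        simp [pval]
      rw [h1]
      refine E.ext ?_ ?_
      · rw [mul_b]
        have h2 : (bval ((c, false), 0)).b = 0 := by cases c <;> simp [bval, bvec]
        rw [h2, map_zero, add_zero]
        rfl
      · exact mul_inv_cancel (FreeGroup.of c)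
    have t1 : ∀ c : Bool, trG (bvec (c, true) 1) 0 ∈ H := by
      intro c
      have h1 := hst _ (e1 c) ([((c, true), 1), ((c, false), 0)], [], false) (by
        rw [mem_shStates, mem_allv, mem_allv]
        simp)
      have h2 : sval ([((c, true), 1), ((c, false), 0)], [], false) = trG (bvec (c, true) 1) 0 :=
        Prod.ext (bv c) (Prod.ext rfl rfl)
      rwa [h2] at h1
    have t2 : ∀ c : Bool, trG 0 (bvec (c, true) 1) ∈ H := by
      intro c
      have h1 := hst _ (e2 c) ([], [((c, true), 1), ((c, false), 0)], false) (by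
        rw [mem_shStates, mem_allv, mem_allv]
        simp)
      have h2 : sval ([], [((c, true), 1), ((c, false), 0)], false) = trG 0 (bvec (c, true) 1) :=
        Prod.ext rfl (Prod.ext (bv c) rfl)
      rwa [h2] at h1
    let T : AddSubgroup ((ℤ × ℤ) × (ℤ × ℤ)) :=
      { carrier := {x | trG x.1 x.2 ∈ H}
        zero_mem' := one_mem H
        add_mem' := by
          intro x y hx hy
          change trG (x.1 + y.1) (x.2 + y.2) ∈ H
          rw [← trG_mul]
          exact mul_mem hx hy
        neg_mem' := by
          intro x hx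
          have h1 : trG x.1 x.2 * trG (-x.1) (-x.2) = 1 := by
            rw [trG_mul, add_neg_cancel, add_neg_cancel]; rfl
          change trG (-x.1) (-x.2) ∈ H
          rw [← inv_eq_of_mul_eq_one_right h1]
          exact inv_mem hx }
    have hT : ∀ x, x ∈ T := by
      intro x
      have h1 : ((((1 : ℤ), (0 : ℤ)), ((0 : ℤ), (0 : ℤ))) : (ℤ × ℤ) × (ℤ × ℤ)) ∈ T := t1 false
      have h2 : ((((0 : ℤ), (1 : ℤ)), ((0 : ℤ), (0 : ℤ))) : (ℤ × ℤ) × (ℤ × ℤ)) ∈ T := t1 true
      have h3 : ((((0 : ℤ), (0 : ℤ)), ((1 : ℤ), (0 : ℤ))) : (ℤ × ℤ) × (ℤ × ℤ)) ∈ T := t2 false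
      have h4 : ((((0 : ℤ), (0 : ℤ)), ((0 : ℤ), (1 : ℤ))) : (ℤ × ℤ) × (ℤ × ℤ)) ∈ T := t2 true
      have h5 := add_mem (add_mem (add_mem (T.zsmul_mem h1 x.1.1) (T.zsmul_mem h2 x.1.2))
        (T.zsmul_mem h3 x.2.1)) (T.zsmul_mem h4 x.2.2)
      have h6 : x.1.1 • (((1 : ℤ), (0 : ℤ)), ((0 : ℤ), (0 : ℤ))) +
          x.1.2 • (((0 : ℤ), (1 : ℤ)), ((0 : ℤ), (0 : ℤ))) +
          x.2.1 • (((0 : ℤ), (0 : ℤ)), ((1 : ℤ), (0 : ℤ))) +
          x.2.2 • (((0 : ℤ), (0 : ℤ)), ((0 : ℤ), (1 : ℤ))) = x := by
        refine Prod.ext (Prod.ext ?_ ?_) (Prod.ext ?_ ?_) <;> simp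
      rwa [h6] at h5
    rw [Gam, Subgroup.closure_le, Set.insert_subset_iff]
    have hwt : FreeGroup.mk (comW (m + 1) (comW m L)) = wt w := by
      rw [mk_comW, mk_comW, hL]
      rfl
    constructor
    · have h1 := hlsh (embW (comW (m + 1) (comW m L)), [], true) (by simp [shapes])
      have h2 : lsh (embW (comW (m + 1) (comW m L)), [], true) = lam (wt w) * tt := by
        refine Prod.ext ?_ (Prod.ext rfl rfl)
        change linE (FreeGroup.mk _) = _ * 1
        rw [mk_embW, hwt, mul_one]; rfl
      rwa [h2] at h1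
    · rintro g ((⟨b1, b2, rfl⟩ | ⟨i, hi, rfl⟩) | ⟨r, hr, rfl⟩)
      · exact hT (b1, b2)
      · have h1 := hlsh (cw i true, cw i true, false) (by
          unfold shapes
          rw [List.mem_append, List.mem_append, List.mem_append]
          exact Or.inl (Or.inl (Or.inr (List.mem_map.2 ⟨i, List.mem_range.2 hi, rfl⟩))))
        have h2 : lsh (cw i true, cw i true, false) = del (FreeGroup.of i) := by
          refine Prod.ext ?_ (Prod.ext ?_ rfl)
          · change linE (FreeGroup.mk _) = _
            rw [mk_cw]; rfl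
          · change linE (FreeGroup.mk _) = _
            rw [mk_cw]; rfl
        rwa [h2] at h1
      · obtain ⟨r', hr', h3⟩ := (hRL _).2 ⟨r, hr, rfl⟩
        have h1 := hlsh (embW r', [], false) (by
          unfold shapes
          rw [List.mem_append, List.mem_append]
          exact Or.inl (Or.inr (List.mem_map.2 ⟨r', hr', rfl⟩)))
        have h2 : lsh (embW r', [], false) = lam (FreeGroup.mk r') := by
          refine Prod.ext ?_ (Prod.ext rfl rfl)
          change linE (FreeGroup.mk _) = _
          rw [mk_embW]; rfl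
        rw [h2, h3] at h1
        exact h1

end Pool.Agent.X281.SS
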