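import Pool.Agent.X281.SS.Act

/-!
# The groups attached to the words in the generators of a finitely presented group
-/

set_option autoImplicit false

namespace Pool.Agent.X281.SS

open scoped commutatorElement

/-- the linear maps -/
def linE : FreeGroup Bool →* E where
  toFun u := ⟨0, u⟩
  map_one' := rfl
  map_mul' u v := by
    ext1
    · rw [mul_b]; simp
    · rfl

/-- the translations -/
def trE (b : ℤ × ℤ) : E := ⟨b, 1⟩

theorem trE_mul_linE (b : ℤ × ℤ) (u : FreeGroup Bool) : trE b * linE u = ⟨b, u⟩ := by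
  ext1
  · rw [mul_b]; simp [trE, linE]
  · rw [mul_u]; simp [trE, linE]

/-- the first copy of the free group -/
def lam : FreeGroup ℕ →* G0 := (MonoidHom.inl E (E × Multiplicative (ZMod 2))).comp (linE.comp emb)

/-- the diagonal copy of the free group -/
def del : FreeGroup ℕ →* G0 :=
  (linE.comp emb).prod ((linE.comp emb).prod (1 : FreeGroup ℕ →* Multiplicative (ZMod 2)))

/-- the central element of order two -/
def tt : G0 := (1, 1, Multiplicative.ofAdd 1)

theorem lam_apply (p : FreeGroup ℕ) : lam p = (linE (emb p), 1, 1) := rfl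
theorem del_apply (p : FreeGroup ℕ) : del p = (linE (emb p), linE (emb p), 1) := rfl

theorem lam_conj (x y : FreeGroup ℕ) : lam (y * x * y⁻¹) = del y * lam x * (del y)⁻¹ := by
  rw [lam_apply, lam_apply, del_apply]
  refine Prod.ext ?_ (Prod.ext ?_ ?_)
  · simp
  · simp
  · simp

theorem lam_comm (x y : FreeGroup ℕ) : lam ⁅x, y⁆ = lam x * (del y * (lam x)⁻¹ * (del y)⁻¹) := by
  have h : ⁅x, y⁆ = x * (y * x⁻¹ * y⁻¹) := by
    rw [commutatorElement_def, mul_assoc, mul_assoc, mul_assoc]
  rw [h, map_mul lam, lam_conj, map_inv lam]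

section

variable {m : ℕ} (R : Finset (FreeGroup (Fin m)))

/-- the generators as natural numbers -/
def jj (m : ℕ) : FreeGroup (Fin m) →* FreeGroup ℕ := FreeGroup.map (fun i => (i : ℕ))

/-- the test element -/
def wt (w : FreeGroup (Fin m)) : FreeGroup ℕ :=
  ⁅⁅jj m w, FreeGroup.of m⁆, FreeGroup.of (m + 1)⁆

/-- the fixed generators -/
def Pset : Set G0 :=
  {g | ∃ b1 b2 : ℤ × ℤ, g = (trE b1, trE b2, 1)} ∪ {g | ∃ i < m + 2, g = del (FreeGroup.of i)} ∪
    {g | ∃ r ∈ R, g = lam (jj m r)}

/-- the group of a word -/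
def Gam (w : FreeGroup (Fin m)) : Subgroup G0 :=
  Subgroup.closure (insert (lam (wt w) * tt) (Pset R))

theorem del_of_mem {i : ℕ} (hi : i < m + 2) :
    del (FreeGroup.of i) ∈ Subgroup.closure (Pset R) :=
  Subgroup.subset_closure (Or.inl (Or.inr ⟨i, hi, rfl⟩))

theorem del_mem (g : FreeGroup (Fin m)) : del (jj m g) ∈ Subgroup.closure (Pset R) := by
  refine FreeGroup.induction_on g ?_ ?_ ?_ ?_
  · rw [map_one, map_one]; exact one_mem _
  · intro i
    rw [jj, FreeGroup.map.of]
    exact del_of_mem R (by have := i.2; omega)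
  · intro i h
    rw [map_inv, map_inv]
    exact inv_mem h
  · intro x y hx hy
    rw [map_mul, map_mul]
    exact mul_mem hx hy

theorem lam_mem {n : FreeGroup (Fin m)}
    (hn : n ∈ Subgroup.normalClosure (R : Set (FreeGroup (Fin m)))) :
    lam (jj m n) ∈ Subgroup.closure (Pset R) := by
  let S : Subgroup (FreeGroup (Fin m)) := (Subgroup.closure (Pset R)).comap (lam.comp (jj m))
  have hS : S.Normal := by
    refine ⟨fun n hn g => ?_⟩
    change lam (jj m (g * n * g⁻¹)) ∈ Subgroup.closure (Pset R)
    have e : jj m (g * n * g⁻¹) = jj m g * jj m n * (jj m g)⁻¹ := by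
      rw [map_mul, map_mul, map_inv]
    rw [e, lam_conj]
    exact mul_mem (mul_mem (del_mem R g) hn) (inv_mem (del_mem R g))
  have h1 : Subgroup.normalClosure (R : Set (FreeGroup (Fin m))) ≤ S := by
    apply Subgroup.normalClosure_le_normal
    intro r hr
    exact Subgroup.subset_closure (Or.inr ⟨r, hr, rfl⟩)
  exact h1 hn

theorem lam_wt_mem {w : FreeGroup (Fin m)}
    (hw : w ∈ Subgroup.normalClosure (R : Set (FreeGroup (Fin m)))) :
    lam (wt w) ∈ Subgroup.closure (Pset R) := by
  have h1 := lam_mem R hw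
  have h2 := del_of_mem R (i := m) (by omega)
  have h3 := del_of_mem R (i := m + 1) (by omega)
  have h4 : lam ⁅jj m w, FreeGroup.of m⁆ ∈ Subgroup.closure (Pset R) := by
    rw [lam_comm]
    exact mul_mem h1 (mul_mem (mul_mem h2 (inv_mem h1)) (inv_mem h2))
  rw [wt, lam_comm]
  exact mul_mem h4 (mul_mem (mul_mem h3 (inv_mem h4)) (inv_mem h3))

theorem Gam_eq {w : FreeGroup (Fin m)}
    (hw : w ∈ Subgroup.normalClosure (R : Set (FreeGroup (Fin m)))) :
    Gam R w = Subgroup.closure (insert tt (Pset R)) := by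
  have h1 := lam_wt_mem R hw
  have e1 : Subgroup.closure (Pset R) ≤ Gam R w :=
    Subgroup.closure_mono (Set.subset_insert _ _)
  have e2 : Subgroup.closure (Pset R) ≤ Subgroup.closure (insert tt (Pset R)) :=
    Subgroup.closure_mono (Set.subset_insert _ _)
  apply le_antisymm
  · rw [Gam, Subgroup.closure_le, Set.insert_subset_iff]
    refine ⟨?_, fun x hx => e2 (Subgroup.subset_closure hx)⟩
    exact mul_mem (e2 h1) (Subgroup.subset_closure (Set.mem_insert _ _))
  · rw [Subgroup.closure_le, Set.insert_subset_iff]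
    refine ⟨?_, fun x hx => e1 (Subgroup.subset_closure hx)⟩
    have h2 : lam (wt w) * tt ∈ Gam R w := Subgroup.subset_closure (Set.mem_insert _ _)
    have h3 := mul_mem (inv_mem (e1 h1)) h2
    rwa [inv_mul_cancel_left] at h3

theorem Gam_eq_one {w : FreeGroup (Fin m)}
    (hw : w ∈ Subgroup.normalClosure (R : Set (FreeGroup (Fin m)))) : Gam R w = Gam R 1 := by
  rw [Gam_eq R hw, Gam_eq R (one_mem _)]

theorem tt_mem : tt ∈ Gam R 1 := by
  rw [Gam_eq R (one_mem _)]
  exact Subgroup.subset_closure (Set.mem_insert _ _)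

end

/-! ### The representation by permutations -/

section

variable (Q : Type) [Group Q]

/-- the space -/
abbrev Om : Type := (Q → ZMod 2) × ZMod 2

/-- the translations of the group -/
def qact : Q →* Equiv.Perm (Om Q) where
  toFun q :=
    { toFun := fun x => (fun s => x.1 (q⁻¹ * s), x.2)
      invFun := fun x => (fun s => x.1 (q * s), x.2)
      left_inv := fun x => by ext <;> simp
      right_inv := fun x => by ext <;> simp }
  map_one' := by
    apply Equiv.ext; intro x; ext <;> simp
  map_mul' p q := by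
    apply Equiv.ext; intro x; ext <;> simp [mul_assoc]

/-- the central translations -/
def zet : Multiplicative (ZMod 2) →* Equiv.Perm (Om Q) where
  toFun e :=
    { toFun := fun x => (x.1, x.2 + e.toAdd)
      invFun := fun x => (x.1, x.2 - e.toAdd)
      left_inv := fun x => by ext <;> simp
      right_inv := fun x => by ext <;> simp }
  map_one' := by
    apply Equiv.ext; intro x; ext <;> simp
  map_mul' p q := by
    apply Equiv.ext; intro x
    ext
    · simp
    · simp only [toAdd_mul, Equiv.coe_fn_mk, Equiv.Perm.coe_mul, Function.comp_apply]; ring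

open Classical in
/-- the translation by a delta function -/
noncomputable def aP : Equiv.Perm (Om Q) where
  toFun x := (x.1 + Pi.single 1 1, x.2)
  invFun x := (x.1 - Pi.single 1 1, x.2)
  left_inv x := by ext <;> simp
  right_inv x := by ext <;> simp

/-- the evaluation -/
def bP : Equiv.Perm (Om Q) where
  toFun x := (x.1, x.2 + x.1 1)
  invFun x := (x.1, x.2 - x.1 1)
  left_inv x := by ext <;> simp
  right_inv x := by ext <;> simp

omit [Group Q] in
theorem zet_apply (e : Multiplicative (ZMod 2)) (x : Om Q) : zet Q e x = (x.1, x.2 + e.toAdd) := rfl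

theorem zet_comm_q (e : Multiplicative (ZMod 2)) (q : Q) :
    Commute (zet Q e) (qact Q q) := by
  apply Equiv.ext; intro x; rfl

theorem zet_comm_a (e : Multiplicative (ZMod 2)) : Commute (zet Q e) (aP Q) := by
  apply Equiv.ext; intro x; rfl

theorem zet_comm_b (e : Multiplicative (ZMod 2)) : Commute (zet Q e) (bP Q) := by
  apply Equiv.ext; intro x
  change ((x.1, x.2 + x.1 1 + e.toAdd) : Om Q) = (x.1, x.2 + e.toAdd + x.1 1)
  rw [add_right_comm]

open Classical in
/-- the commutator -/
noncomputable def cP (q : Q) : Equiv.Perm (Om Q) where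
  toFun x := (fun s => x.1 s + (Pi.single 1 1 : Q → ZMod 2) (q⁻¹ * s) -
    (Pi.single 1 1 : Q → ZMod 2) s, x.2)
  invFun x := (fun s => x.1 s - (Pi.single 1 1 : Q → ZMod 2) (q⁻¹ * s) +
    (Pi.single 1 1 : Q → ZMod 2) s, x.2)
  left_inv x := Prod.ext (funext fun s => by dsimp only; ring) rfl
  right_inv x := Prod.ext (funext fun s => by dsimp only; ring) rfl

open Classical in
/-- the commutator is central of order two -/
theorem comm_eq {q : Q} (hq : q ≠ 1) :
    ⁅⁅qact Q q, aP Q⁆, bP Q⁆ = zet Q (Multiplicative.ofAdd 1) := by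
  have h1 : qact Q q * aP Q = cP Q q * (aP Q * qact Q q) := by
    apply Equiv.ext
    intro x
    refine Prod.ext ?_ rfl
    funext s
    simp only [Equiv.Perm.coe_mul, Function.comp_apply, qact, aP, cP, MonoidHom.coe_mk,
      OneHom.coe_mk, Equiv.coe_fn_mk, Pi.add_apply]
    ring
  have h2 : ⁅qact Q q, aP Q⁆ = cP Q q := by
    rw [commutatorElement_def, h1]
    group
  have h3 : cP Q q * bP Q = zet Q (Multiplicative.ofAdd 1) * (bP Q * cP Q q) := by
    apply Equiv.ext
    intro x
    have hs : (Pi.single 1 1 : Q → ZMod 2) q⁻¹ = 0 :=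
      Pi.single_eq_of_ne (by simpa using hq) _
    refine Prod.ext rfl ?_
    simp only [Equiv.Perm.coe_mul, Function.comp_apply, bP, cP, zet_apply,
      Equiv.coe_fn_mk, toAdd_ofAdd, mul_one, hs, Pi.single_eq_same]
    ring
  rw [h2, commutatorElement_def, h3]
  group

/-! ### The subgroup without elements of order two -/

variable {m : ℕ} (N : Subgroup (FreeGroup (Fin m))) [N.Normal]

/-- the representation -/
noncomputable def tht : FreeGroup ℕ →* Equiv.Perm (Om (FreeGroup (Fin m) ⧸ N)) :=
  FreeGroup.lift fun i => if h : i < m then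
      qact _ (QuotientGroup.mk (FreeGroup.of ⟨i, h⟩))
    else if i = m then aP _ else if i = m + 1 then bP _ else 1

theorem tht_jj (g : FreeGroup (Fin m)) : tht N (jj m g) = qact _ (QuotientGroup.mk g) := by
  have h : (tht N).comp (jj m) = (qact _).comp (QuotientGroup.mk' N) := by
    apply FreeGroup.ext_hom
    intro i
    simp [tht, jj]
  exact DFunLike.congr_fun h g

theorem tht_m : tht N (FreeGroup.of m) = aP _ := by
  simp [tht]

theorem tht_m1 : tht N (FreeGroup.of (m + 1)) = bP _ := by
  simp [tht]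

theorem tht_wt {w : FreeGroup (Fin m)} (hw : w ∉ N) :
    tht N (wt w) = zet _ (Multiplicative.ofAdd 1) := by
  rw [wt, map_commutatorElement, map_commutatorElement, tht_jj, tht_m, tht_m1]
  apply comm_eq
  intro h
  exact hw ((QuotientGroup.eq_one_iff w).1 h)

theorem zet_comm (e : Multiplicative (ZMod 2)) (p : FreeGroup ℕ) :
    Commute (zet _ e) (tht N p) := by
  refine FreeGroup.induction_on p ?_ ?_ ?_ ?_
  · rw [map_one]; exact Commute.one_right _
  · intro i
    rw [tht, FreeGroup.lift_apply_of]
    split_ifs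
    · exact zet_comm_q _ _ _
    · exact zet_comm_a _ _
    · exact zet_comm_b _ _
    · exact Commute.one_right _
  · intro i h
    rw [map_inv]; exact h.inv_right
  · intro x y hx hy
    rw [map_mul]; exact hx.mul_right hy

/-- the big subgroup -/
def KK : Subgroup G0 where
  carrier := {g | ∃ p q : FreeGroup ℕ, g.1.u = emb p ∧ g.2.1.u = emb q ∧
    tht N p = zet _ g.2.2 * tht N q}
  one_mem' := ⟨1, 1, by rw [map_one]; rfl, by rw [map_one]; rfl, by
    rw [map_one]
    change 1 = zet _ 1 * 1
    rw [map_one, one_mul]⟩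
  mul_mem' := by
    rintro g h ⟨p, q, h1, h2, h3⟩ ⟨p', q', h1', h2', h3'⟩
    refine ⟨p * p', q * q', ?_, ?_, ?_⟩
    · change g.1.u * h.1.u = _
      rw [h1, h1', map_mul]
    · change g.2.1.u * h.2.1.u = _
      rw [h2, h2', map_mul]
    · change _ = zet _ (g.2.2 * h.2.2) * _
      rw [map_mul, map_mul, map_mul, h3, h3', mul_assoc, ← mul_assoc (tht N q),
        ← (zet_comm N h.2.2 q).eq, mul_assoc, mul_assoc]
  inv_mem' := by
    rintro g ⟨p, q, h1, h2, h3⟩
    refine ⟨p⁻¹, q⁻¹, ?_, ?_, ?_⟩
    · change (g.1.u)⁻¹ = _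
      rw [h1, map_inv]
    · change (g.2.1.u)⁻¹ = _
      rw [h2, map_inv]
    · change _ = zet _ (g.2.2)⁻¹ * _
      rw [map_inv, map_inv, map_inv, h3, mul_inv_rev]
      exact ((zet_comm N g.2.2 q).inv_inv).eq.symm

theorem KK_sq {g : G0} (hg : g ∈ KK N) (h : g * g = 1) : g = 1 := by
  obtain ⟨p, q, h1, h2, h3⟩ := hg
  have hE : ∀ e : E, e * e = 1 → e = 1 := by
    intro e he
    have hu : e.u * e.u = 1 := congrArg E.u he
    have hu1 : e.u = 1 := by
      rw [← pow_two] at hu
      exact (pow_eq_one_iff.1 hu).resolve_right two_ne_zero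
    have hb : e.b + rho e.u e.b = 0 := congrArg E.b he
    rw [hu1, map_one] at hb
    have hb1 : e.b + e.b = 0 := hb
    have hb2 : e.b = 0 := by
      have i1 := congrArg Prod.fst hb1
      have i2 := congrArg Prod.snd hb1
      simp only [Prod.fst_add, Prod.snd_add, Prod.fst_zero, Prod.snd_zero] at i1 i2
      ext
      · change e.b.1 = 0; omega
      · change e.b.2 = 0; omega
    exact E.ext hb2 hu1
  have g1 : g.1 = 1 := hE _ (congrArg Prod.fst h)
  have g2 : g.2.1 = 1 := hE _ (congrArg (fun x => x.2.1) h)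
  have hp : p = 1 := by
    apply emb_injective
    rw [← h1, g1, map_one]; rfl
  have hq : q = 1 := by
    apply emb_injective
    rw [← h2, g2, map_one]; rfl
  rw [hp, hq, map_one, mul_one] at h3
  have g3 : g.2.2 = 1 := by
    have h4 := Equiv.congr_fun h3 ((fun _ => 0, 0) : Om (FreeGroup (Fin m) ⧸ N))
    rw [zet_apply] at h4
    have h5 := congrArg Prod.snd h4
    change (0 : ZMod 2) = 0 + g.2.2.toAdd at h5
    rw [zero_add] at h5
    exact h5.symm
  exact Prod.ext g1 (Prod.ext g2 g3)

end

theorem Gam_le {m : ℕ} (R : Finset (FreeGroup (Fin m))) {w : FreeGroup (Fin m)}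
    (hw : w ∉ Subgroup.normalClosure (R : Set (FreeGroup (Fin m)))) :
    Gam R w ≤ KK (Subgroup.normalClosure (R : Set (FreeGroup (Fin m)))) := by
  rw [Gam, Subgroup.closure_le, Set.insert_subset_iff]
  constructor
  · refine ⟨wt w, 1, ?_, ?_, ?_⟩
    · change emb (wt w) * 1 = _
      rw [mul_one]
    · change (1 : FreeGroup Bool) * 1 = _
      rw [mul_one, map_one]
    · rw [tht_wt _ hw, map_one (tht _), mul_one]
      rfl
  · rintro g ((⟨b1, b2, rfl⟩ | ⟨i, hi, rfl⟩) | ⟨r, hr, rfl⟩)
    · refine ⟨1, 1, ?_, ?_, ?_⟩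
      · rw [map_one]; rfl
      · rw [map_one]; rfl
      · change _ = zet _ 1 * _
        rw [map_one, map_one, mul_one]
    · refine ⟨FreeGroup.of i, FreeGroup.of i, rfl, rfl, ?_⟩
      change _ = zet _ 1 * _
      rw [map_one, one_mul]
    · refine ⟨jj m r, 1, rfl, ?_, ?_⟩
      · rw [map_one]; rfl
      · change _ = zet _ 1 * _
        rw [map_one, map_one, mul_one, tht_jj]
        have : (QuotientGroup.mk r : FreeGroup (Fin m) ⧸
            Subgroup.normalClosure (R : Set (FreeGroup (Fin m)))) = 1 :=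
          (QuotientGroup.eq_one_iff r).2 (Subgroup.subset_normalClosure hr)
        rw [this, map_one]

/-- the isomorphism type of the group decides the word problem -/
theorem Gam_iff {m : ℕ} (R : Finset (FreeGroup (Fin m))) (w : FreeGroup (Fin m)) :
    Nonempty (Gam R w ≃* Gam R 1) ↔
      w ∈ Subgroup.normalClosure (R : Set (FreeGroup (Fin m))) := by
  constructor
  · rintro ⟨f⟩
    by_contra hw
    let t : Gam R 1 := ⟨tt, tt_mem R⟩
    have ht : t * t = 1 := by
      apply Subtype.ext
      change tt * tt = 1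
      refine Prod.ext (one_mul 1) (Prod.ext (one_mul 1) ?_)
      rfl
    have h1 : f.symm t * f.symm t = 1 := by
      rw [← map_mul, ht, map_one]
    have h2 : (f.symm t : G0) = 1 := by
      apply KK_sq _ (Gam_le R hw (f.symm t).2)
      exact congrArg Subtype.val h1
    have h3 : f.symm t = 1 := Subtype.ext h2
    have h4 : t = 1 := by
      have := congrArg f h3
      rwa [MulEquiv.apply_symm_apply, map_one] at this
    have h5 : tt = 1 := congrArg Subtype.val h4
    have h6 : (Multiplicative.ofAdd (1 : ZMod 2)) = 1 := congrArg (fun g : G0 => g.2.2) h5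
    have h7 : (1 : ZMod 2) = 0 := h6
    exact one_ne_zero h7
  · intro hw
    rw [Gam_eq_one R hw]
    exact ⟨MulEquiv.refl _⟩

end Pool.Agent.X281.SS
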