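import Pool.Agent.X281.SS.Comp
import Pool.Agent.Helper270.WPB

/-!
# The isomorphism problem for self-similar groups
-/

set_option autoImplicit false

namespace Pool.Agent.X281.SS

/-- automata with the same tables generate isomorphic groups -/
theorem code_inj {m n m₁ n₁ : ℕ} (A : Automaton m n) (A₁ : Automaton m₁ n₁) (hm : 0 < m)
    (h : A.code = A₁.code) : Nonempty (A.group ≃* A₁.group) := by
  have h1 : m = m₁ := by
    have := congrArg List.length h
    simpa [Automaton.code] using this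
  subst h1
  have h2 := List.ofFn_injective h
  have h3 : n = n₁ := by
    have := congrArg List.length (congrFun h2 ⟨0, hm⟩)
    simpa using this
  subst h3
  have h5 : ∀ s x, ((A.next s x : ℕ), (A.out s x : ℕ)) = ((A₁.next s x : ℕ), (A₁.out s x : ℕ)) :=
    fun s x => congrFun (List.ofFn_injective (congrFun h2 s)) x
  have h6 : A.next = A₁.next := by
    funext s x
    exact Fin.ext (congrArg Prod.fst (h5 s x))
  have h7 : A.out = A₁.out := by
    funext s x
    exact Fin.ext (congrArg Prod.snd (h5 s x))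
  have h4 : A = A₁ := by
    cases A
    cases A₁
    simp only at h6 h7
    subst h6 h7
    rfl
  rw [h4]
  exact ⟨MulEquiv.refl _⟩

/-- a word in the generators as a word in natural numbers -/
def cv {m : ℕ} (L : List (Fin m × Bool)) : List (ℕ × Bool) := L.map fun x => ((x.1 : ℕ), x.2)

theorem mk_cv {m : ℕ} (L : List (Fin m × Bool)) :
    FreeGroup.mk (cv L) = jj m (FreeGroup.mk L) := rfl

theorem prim_cv (m : ℕ) : Primrec (cv (m := m)) :=
  Primrec.list_map (f := fun L : List (Fin m × Bool) => L)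
    (g := fun _ (x : Fin m × Bool) => ((x.1 : ℕ), x.2)) Primrec.id
    (Primrec.pair (Primrec.fin_val.comp (Primrec.fst.comp Primrec.snd))
      (Primrec.snd.comp Primrec.snd))

/-- the words of the relators -/
noncomputable def rels {m : ℕ} (R : Finset (FreeGroup (Fin m))) : List (List (ℕ × Bool)) :=
  R.toList.map fun r => cv r.toWord

theorem rels_spec {m : ℕ} (R : Finset (FreeGroup (Fin m))) (p : FreeGroup ℕ) :
    (∃ r ∈ rels R, FreeGroup.mk r = p) ↔ ∃ r ∈ R, jj m r = p := by
  constructor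
  · rintro ⟨r, hr, rfl⟩
    obtain ⟨q, hq, rfl⟩ := List.mem_map.1 hr
    refine ⟨q, Finset.mem_toList.1 hq, ?_⟩
    rw [mk_cv, FreeGroup.mk_toWord]
  · rintro ⟨r, hr, rfl⟩
    refine ⟨cv r.toWord, List.mem_map.2 ⟨r, Finset.mem_toList.2 hr, rfl⟩, ?_⟩
    rw [mk_cv, FreeGroup.mk_toWord]

/-- the list of the states -/
noncomputable def stL {m : ℕ} (R : Finset (FreeGroup (Fin m))) (L : List (Fin m × Bool)) :
    List St := states (shapes m (rels R) (cv L))

theorem stL_closed {m : ℕ} (R : Finset (FreeGroup (Fin m))) (L : List (Fin m × Bool)) :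
    ∀ s ∈ stL R L, ∀ a, nxt s a ∈ stL R L := fun _ hs a => nxt_mem_states hs a

theorem stL_pos {m : ℕ} (R : Finset (FreeGroup (Fin m))) (L : List (Fin m × Bool)) :
    0 < (stL R L).length := by
  obtain ⟨s, hs, -⟩ := exists_lsh ([(false, true), (false, false)], [], false)
  apply List.length_pos_of_mem (a := s)
  refine List.mem_flatMap.2 ⟨_, ?_, hs⟩
  simp [shapes]

/-- the automaton of a word -/
noncomputable def autW {m : ℕ} (R : Finset (FreeGroup (Fin m))) (L : List (Fin m × Bool)) :
    Automaton (stL R L).length 32 := autOf (stL R L) (stL_closed R L)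

theorem autW_iff {m : ℕ} (R : Finset (FreeGroup (Fin m))) (L : List (Fin m × Bool)) :
    Nonempty ((autW R L).group ≃* (autW R []).group) ↔
      FreeGroup.mk L ∈ Subgroup.normalClosure (R : Set (FreeGroup (Fin m))) := by
  rw [← Gam_iff R (FreeGroup.mk L)]
  have h1 : ∀ L : List (Fin m × Bool),
      Nonempty ((autW R L).group ≃* Gam R (FreeGroup.mk L)) := by
    intro L
    have h2 := closure_states R (rels_spec R) (mk_cv L)
    exact ⟨(autOf_equiv _ _).trans (MulEquiv.subgroupCongr h2)⟩
  obtain ⟨e⟩ := h1 L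
  obtain ⟨e'⟩ := h1 []
  have h3 : (FreeGroup.mk ([] : List (Fin m × Bool))) = 1 := rfl
  rw [h3] at e'
  constructor
  · rintro ⟨f⟩
    exact ⟨(e.symm.trans f).trans e'⟩
  · rintro ⟨f⟩
    exact ⟨(e.trans f).trans e'.symm⟩

theorem computable_code {m : ℕ} (R : Finset (FreeGroup (Fin m))) {W : ℕ → List (Fin m × Bool)}
    (hW : Computable W) : Computable fun n => (autW R (W n)).code := by
  have h1 : Primrec fun L : List (Fin m × Bool) => tabS (stL R L) :=
    prim_tabS.comp (prim_states.comp ((prim_shapes m (rels R)).comp (prim_cv m)))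
  have h2 : (fun n => (autW R (W n)).code) = fun n => tabS (stL R (W n)) :=
    funext fun n => code_autOf _ _
  rw [h2]
  exact h1.to_comp.comp hW

theorem main : ∃ (k : ℕ) (B : Automaton k 32), 0 < k ∧
    ∃ (T : ℕ → List (List (ℕ × ℕ))) (p : ℕ → Prop), Computable T ∧ ¬ ComputablePred p ∧
      ∀ n, ∃ (m : ℕ) (A : Automaton m 32), 0 < m ∧ A.code = T n ∧
        (Nonempty (A.group ≃* B.group) ↔ p n) := by
  obtain ⟨m, R, W, hW, hp⟩ := Pool.Agent.Helper270.WP.word_problem
  exact ⟨_, autW R [], stL_pos R [], fun n => (autW R (W n)).code, _, computable_code R hW, hp,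
    fun n => ⟨_, autW R (W n), stL_pos R (W n), rfl, autW_iff R (W n)⟩⟩

/-- the three forms of the undecidability -/
theorem undecidable :
    (∃ (k : ℕ) (B : Automaton k 32), 0 < k ∧
      ¬ ∃ f : List (List (ℕ × ℕ)) → Bool, Computable f ∧
        ∀ (m : ℕ) (A : Automaton m 32), 0 < m →
          (f A.code = true ↔ Nonempty (A.group ≃* B.group))) ∧
    (¬ ∃ f : List (List (ℕ × ℕ)) × List (List (ℕ × ℕ)) → Bool, Computable f ∧
        ∀ (m n m' n' : ℕ) (A : Automaton m n) (B : Automaton m' n'),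
          0 < m → 2 ≤ n → 0 < m' → 2 ≤ n' →
            (f (A.code, B.code) = true ↔ Nonempty (A.group ≃* B.group))) ∧
    ¬ ComputablePred fun c : List (List (ℕ × ℕ)) × List (List (ℕ × ℕ)) =>
        ∃ (m n m' n' : ℕ) (A : Automaton m n) (B : Automaton m' n'),
          0 < m ∧ 2 ≤ n ∧ 0 < m' ∧ 2 ≤ n' ∧ A.code = c.1 ∧ B.code = c.2 ∧
            Nonempty (A.group ≃* B.group) := by
  obtain ⟨k, B, hk, T, p, hT, hp, h⟩ := main
  have h2 : ¬ ∃ f : List (List (ℕ × ℕ)) × List (List (ℕ × ℕ)) → Bool, Computable f ∧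
        ∀ (m n m' n' : ℕ) (A : Automaton m n) (B : Automaton m' n'),
          0 < m → 2 ≤ n → 0 < m' → 2 ≤ n' →
            (f (A.code, B.code) = true ↔ Nonempty (A.group ≃* B.group)) := by
    rintro ⟨f, hf, hfA⟩
    apply hp
    refine ComputablePred.computable_iff.2 ⟨fun n => f (T n, B.code),
      hf.comp (hT.pair (Computable.const _)), ?_⟩
    funext n
    obtain ⟨m, A, hm, hA, hi⟩ := h n
    change p n = (f (T n, B.code) = true)
    rw [← hA]
    exact propext ((hfA m 32 k 32 A B hm (by norm_num) hk (by norm_num)).trans hi).symm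
  refine ⟨⟨k, B, hk, ?_⟩, h2, ?_⟩
  · rintro ⟨f, hf, hfA⟩
    apply hp
    refine ComputablePred.computable_iff.2 ⟨fun n => f (T n), hf.comp hT, ?_⟩
    funext n
    obtain ⟨m, A, hm, hA, hi⟩ := h n
    change p n = (f (T n) = true)
    rw [← hA]
    exact propext ((hfA m A hm).trans hi).symm
  · intro hc
    obtain ⟨f, hf, hfe⟩ := ComputablePred.computable_iff.1 hc
    apply h2
    refine ⟨f, hf, fun m n m' n' A B hm hn hm' hn' => ?_⟩
    have h3 := congrFun hfe (A.code, B.code)
    simp only at h3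
    rw [← h3]
    constructor
    · rintro ⟨m1, n1, m2, n2, A1, B1, -, -, -, -, h4, h5, ⟨e⟩⟩
      obtain ⟨e1⟩ := code_inj A A1 hm h4.symm
      obtain ⟨e2⟩ := code_inj B B1 hm' h5.symm
      exact ⟨(e1.trans e).trans e2.symm⟩
    · intro he
      exact ⟨m, n, m', n', A, B, hm, hn, hm', hn', rfl, rfl, he⟩

end Pool.Agent.X281.SS
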