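import Mathlib

/-!
# The representation of the free group of rank two by integral maps of the plane (Sanov), and free
subgroups of infinite rank
-/

set_option autoImplicit false

namespace Pool.Agent.X281.SS

/-- `(x, y) ↦ (x + 2 y, y)` -/
def gA : (ℤ × ℤ) ≃ₗ[ℤ] (ℤ × ℤ) where
  toFun v := (v.1 + 2 * v.2, v.2)
  invFun v := (v.1 - 2 * v.2, v.2)
  left_inv v := by ext <;> simp
  right_inv v := by ext <;> simp
  map_add' v w := by
    ext
    · simp; ring
    · simp
  map_smul' c v := by
    ext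
    · simp; ring
    · simp

/-- `(x, y) ↦ (x, y + 2 x)` -/
def gB : (ℤ × ℤ) ≃ₗ[ℤ] (ℤ × ℤ) where
  toFun v := (v.1, v.2 + 2 * v.1)
  invFun v := (v.1, v.2 - 2 * v.1)
  left_inv v := by ext <;> simp
  right_inv v := by ext <;> simp
  map_add' v w := by
    ext
    · simp
    · simp; ring
  map_smul' c v := by
    ext
    · simp
    · simp; ring

/-- the action of the free group on the plane; `false ↦ gA`, `true ↦ gB` -/
def rho : FreeGroup Bool →* ((ℤ × ℤ) ≃ₗ[ℤ] (ℤ × ℤ)) :=
  FreeGroup.lift (fun c => cond c gB gA)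

/-- the action of a letter -/
def rl (s : Bool × Bool) : (ℤ × ℤ) ≃ₗ[ℤ] (ℤ × ℤ) := rho (FreeGroup.mk [s])

theorem rl_ff (v : ℤ × ℤ) : rl (false, false) v = (v.1 - 2 * v.2, v.2) := by
  have : rl (false, false) = gA⁻¹ := by
    simp [rl, rho, FreeGroup.lift_mk]
  rw [this]; rfl

theorem rl_ft (v : ℤ × ℤ) : rl (false, true) v = (v.1 + 2 * v.2, v.2) := by
  have : rl (false, true) = gA := by
    simp [rl, rho, FreeGroup.lift_mk]
  rw [this]; rfl

theorem rl_tf (v : ℤ × ℤ) : rl (true, false) v = (v.1, v.2 - 2 * v.1) := by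
  have : rl (true, false) = gB⁻¹ := by
    simp [rl, rho, FreeGroup.lift_mk]
  rw [this]; rfl

theorem rl_tt (v : ℤ × ℤ) : rl (true, true) v = (v.1, v.2 + 2 * v.1) := by
  have : rl (true, true) = gB := by
    simp [rl, rho, FreeGroup.lift_mk]
  rw [this]; rfl

/-- the region of a letter -/
def Reg (s : Bool × Bool) (v : ℤ × ℤ) : Prop :=
  match s with
  | (false, true) => |v.2| < |v.1| ∧ 0 < v.1 * v.2
  | (false, false) => |v.2| < |v.1| ∧ v.1 * v.2 < 0
  | (true, true) => |v.1| < |v.2| ∧ 0 < v.1 * v.2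
  | (true, false) => |v.1| < |v.2| ∧ v.1 * v.2 < 0

theorem aux1 {x y : ℤ} (h : |x| < |y|) : |y| < |x + 2 * y| ∧ 0 < (x + 2 * y) * y := by
  rcases abs_cases x with ⟨h1, h2⟩ | ⟨h1, h2⟩ <;> rcases abs_cases y with ⟨h3, h4⟩ | ⟨h3, h4⟩
  · have h5 : 0 < y := by omega
    refine ⟨by rw [abs_of_pos (by omega : 0 < x + 2 * y)]; omega, by nlinarith⟩
  · refine ⟨by rw [abs_of_neg (by omega : x + 2 * y < 0)]; omega, by nlinarith⟩
  · have h5 : 0 < y := by omega
    refine ⟨by rw [abs_of_pos (by omega : 0 < x + 2 * y)]; omega, by nlinarith⟩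
  · refine ⟨by rw [abs_of_neg (by omega : x + 2 * y < 0)]; omega, by nlinarith⟩

theorem aux2 {x y : ℤ} (h : |x| < |y|) : |y| < |x - 2 * y| ∧ (x - 2 * y) * y < 0 := by
  have := aux1 (x := x) (y := -y) (by rwa [abs_neg])
  rw [abs_neg] at this
  refine ⟨by convert this.1 using 2; ring, by nlinarith [this.2]⟩

theorem aux3 {x y : ℤ} (h : |y| < |x|) (h' : 0 < x * y) :
    |y| < |x + 2 * y| ∧ 0 < (x + 2 * y) * y := by
  rcases lt_trichotomy y 0 with hy | hy | hy
  · have hx : x < 0 := by nlinarith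
    rw [abs_of_neg hy, abs_of_neg hx] at h
    refine ⟨by rw [abs_of_neg hy, abs_of_neg (by omega : x + 2 * y < 0)]; omega, by nlinarith⟩
  · subst hy; simp at h'
  · have hx : 0 < x := by nlinarith
    rw [abs_of_pos hy, abs_of_pos hx] at h
    refine ⟨by rw [abs_of_pos hy, abs_of_pos (by omega : 0 < x + 2 * y)]; omega, by nlinarith⟩

theorem aux4 {x y : ℤ} (h : |y| < |x|) (h' : x * y < 0) :
    |y| < |x - 2 * y| ∧ (x - 2 * y) * y < 0 := by
  have := aux3 (x := x) (y := -y) (by rwa [abs_neg]) (by linarith)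
  rw [abs_neg] at this
  refine ⟨by convert this.1 using 2; ring, by nlinarith [this.2]⟩

theorem reg_ft (x y : ℤ) : Reg (false, true) (x, y) ↔ |y| < |x| ∧ 0 < x * y := Iff.rfl
theorem reg_ff (x y : ℤ) : Reg (false, false) (x, y) ↔ |y| < |x| ∧ x * y < 0 := Iff.rfl
theorem reg_tt (x y : ℤ) : Reg (true, true) (x, y) ↔ |x| < |y| ∧ 0 < x * y := Iff.rfl
theorem reg_tf (x y : ℤ) : Reg (true, false) (x, y) ↔ |x| < |y| ∧ x * y < 0 := Iff.rfl

/-- a letter maps the region of a letter different from its inverse to its own region -/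
theorem reg_step (s s' : Bool × Bool) (h : s.1 = s'.1 → s.2 = s'.2) (v : ℤ × ℤ) (hv : Reg s' v) :
    Reg s (rl s v) := by
  obtain ⟨x, y⟩ := v
  obtain ⟨c, e⟩ := s
  obtain ⟨c', e'⟩ := s'
  have hce : c = c' → e = e' := h
  clear h
  rcases c with _ | _ <;> rcases e with _ | _
  · rw [rl_ff, reg_ff]
    rcases c' with _ | _
    · obtain rfl := hce rfl
      exact aux4 hv.1 hv.2
    · rcases e' with _ | _
      · exact aux2 hv.1
      · exact aux2 hv.1
  · rw [rl_ft, reg_ft]
    rcases c' with _ | _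
    · obtain rfl := hce rfl
      exact aux3 hv.1 hv.2
    · rcases e' with _ | _
      · exact aux1 hv.1
      · exact aux1 hv.1
  · rw [rl_tf, reg_tf]
    simp only
    rw [mul_comm x]
    rcases c' with _ | _
    · rcases e' with _ | _
      · exact aux2 hv.1
      · exact aux2 hv.1
    · obtain rfl := hce rfl
      have h2 := hv.2
      exact aux4 hv.1 (by rw [mul_comm]; exact h2)
  · rw [rl_tt, reg_tt]
    simp only
    rw [mul_comm x]
    rcases c' with _ | _
    · rcases e' with _ | _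
      · exact aux1 hv.1
      · exact aux1 hv.1
    · obtain rfl := hce rfl
      have h2 := hv.2
      exact aux3 hv.1 (by rw [mul_comm]; exact h2)

/-- the first vector -/
def v0 (c : Bool) : ℤ × ℤ := cond c (1, 0) (0, 1)

theorem reg_start (s : Bool × Bool) : Reg s (rl s (v0 s.1)) := by
  obtain ⟨c, e⟩ := s
  cases c <;> cases e <;> simp [Reg, rl_ff, rl_ft, rl_tf, rl_tt, v0]

theorem rho_mk_cons (s : Bool × Bool) (L : List (Bool × Bool)) (v : ℤ × ℤ) :
    rho (FreeGroup.mk (s :: L)) v = rl s (rho (FreeGroup.mk L) v) := by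
  have : (FreeGroup.mk (s :: L)) = FreeGroup.mk [s] * FreeGroup.mk L := by
    rw [FreeGroup.mul_mk]; rfl
  rw [this, map_mul]; rfl

theorem reg_list (L : List (Bool × Bool)) (hne : L ≠ []) (hred : FreeGroup.IsReduced L) :
    Reg (L.head hne) (rho (FreeGroup.mk L) (v0 (L.getLast hne).1)) := by
  induction L with
  | nil => exact absurd rfl hne
  | cons s L ih =>
    rcases L with _ | ⟨s', L⟩
    · rw [rho_mk_cons]
      have : (FreeGroup.mk ([] : List (Bool × Bool))) = 1 := rfl
      rw [this, map_one]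
      exact reg_start s
    · rw [rho_mk_cons]
      have hred' : FreeGroup.IsReduced (s' :: L) := by
        unfold FreeGroup.IsReduced at hred ⊢
        exact (List.isChain_cons_cons.1 hred).2
      have h1 := ih (by simp) hred'
      have h2 : s.1 = s'.1 → s.2 = s'.2 := by
        unfold FreeGroup.IsReduced at hred
        exact (List.isChain_cons_cons.1 hred).1
      exact reg_step s s' h2 _ h1

theorem rho_injective : Function.Injective rho := by
  rw [injective_iff_map_eq_one]
  intro u hu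
  by_contra hne
  have h1 : u.toWord ≠ [] := by
    intro h
    exact hne (FreeGroup.toWord_eq_nil_iff.1 h)
  have h2 := reg_list u.toWord h1 FreeGroup.isReduced_toWord
  rw [FreeGroup.mk_toWord, hu] at h2
  change Reg _ (v0 _) at h2
  generalize (u.toWord.head h1) = s at h2
  generalize (u.toWord.getLast h1).1 = c at h2
  obtain ⟨a, e⟩ := s
  cases a <;> cases e <;> cases c <;> simp [Reg, v0] at h2

/-- `x_i ↦ y^i x y^{-i}` with `x = of false`, `y = of true` -/
def emb : FreeGroup ℕ →* FreeGroup Bool :=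
  FreeGroup.lift (fun i => FreeGroup.of true ^ i * FreeGroup.of false * (FreeGroup.of true ^ i)⁻¹)

/-- the shift of the generators -/
def shf : Equiv.Perm (FreeGroup ℤ) := (FreeGroup.freeGroupCongr (Equiv.addRight (1 : ℤ))).toEquiv

theorem shf_mul (u v : FreeGroup ℤ) : shf (u * v) = shf u * shf v :=
  map_mul (FreeGroup.freeGroupCongr (Equiv.addRight (1 : ℤ))) u v

theorem shf_of (i : ℤ) : shf (FreeGroup.of i) = FreeGroup.of (i + 1) := by
  simp [shf]

/-- an auxiliary representation -/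
def tau : FreeGroup Bool →* Equiv.Perm (FreeGroup ℤ) :=
  FreeGroup.lift (fun c => cond c shf (Equiv.mulLeft (FreeGroup.of (0 : ℤ))))

theorem shf_conj (u : FreeGroup ℤ) : shf * Equiv.mulLeft u = Equiv.mulLeft (shf u) * shf := by
  ext v
  simp [shf_mul]

theorem shf_pow_conj (i : ℕ) :
    shf ^ i * Equiv.mulLeft (FreeGroup.of (0 : ℤ)) =
      Equiv.mulLeft (FreeGroup.of (i : ℤ)) * shf ^ i := by
  induction i with
  | zero => simp
  | succ i ih =>
    rw [pow_succ', mul_assoc, ih, ← mul_assoc, shf_conj, shf_of, mul_assoc, Nat.cast_succ]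

theorem tau_emb (u : FreeGroup ℕ) : tau (emb u) = Equiv.mulLeft (FreeGroup.map (fun i : ℕ => (i : ℤ)) u) := by
  have h : tau.comp emb = (MulAction.toPermHom (FreeGroup ℤ) (FreeGroup ℤ)).comp
      (FreeGroup.map (fun i : ℕ => (i : ℤ))) := by
    apply FreeGroup.ext_hom
    intro i
    have h1 : tau (emb (FreeGroup.of i)) = shf ^ i * Equiv.mulLeft (FreeGroup.of (0 : ℤ)) *
        (shf ^ i)⁻¹ := by
      simp [emb, tau]
    rw [MonoidHom.comp_apply, h1, shf_pow_conj, mul_inv_cancel_right, MonoidHom.comp_apply,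
      FreeGroup.map.of]
    ext v
    rfl
  have h1 := DFunLike.congr_fun h u
  rw [MonoidHom.comp_apply] at h1
  rw [h1]
  ext v
  rfl

theorem emb_injective : Function.Injective emb := by
  rw [injective_iff_map_eq_one]
  intro u hu
  have h1 := tau_emb u
  rw [hu, map_one] at h1
  have h2 := congrArg (fun e : Equiv.Perm (FreeGroup ℤ) => e 1) h1
  simp only [Equiv.Perm.coe_one, id_eq, Equiv.coe_mulLeft, mul_one] at h2
  have h3 : Function.Injective (FreeGroup.map (fun i : ℕ => (i : ℤ))) :=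
    FreeGroup.map_injective Nat.cast_injective
  apply h3
  rw [← h2, map_one]

end Pool.Agent.X281.SS
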